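import Pool.Agent.H105.AMA.Names
import Pool.Agent.Helper126.Fact

/-!
# The countable chain condition, raw names, bounded supports
-/

set_option autoImplicit false
set_option linter.unusedSectionVars false

namespace Pool.Agent.H105.AMA

open Classical

variable {K I : Type} [LinearOrder I] [WellFoundedLT I] {Γ : Par K I} {S T : Set I} {X : Type}

/-- an uncountable set of conditions has two different compatible members -/
theorem ccc (A : Set (Cond K I)) (hA : ¬ A.Countable) :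
    ∃ p ∈ A, ∃ q ∈ A, p ≠ q ∧ ∃ r, le Γ T r p ∧ le Γ T r q := by
  obtain ⟨A', R, hA', hunc, -, hd⟩ := Helper126.delta_system
    (fun p : Cond K I => p.2.toFinset) A hA
  by_contra hcon
  push Not at hcon
  have hinj : Set.InjOn (fun p : Cond K I => fun i : R => (p i.1).stem) A' := by
    intro p hp q hq heq
    by_contra hne
    refine hcon p (hA' hp) q (hA' hq) hne (join p q) ?_ ?_
    · refine (join_le fun i hi hi' => ?_).1
      have h1 : i ∈ R := hd p hp q hq hne i (p.2.mem_toFinset.2 hi) (q.2.mem_toFinset.2 hi')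
      exact congrFun heq ⟨i, h1⟩
    · refine (join_le fun i hi hi' => ?_).2
      have h1 : i ∈ R := hd p hp q hq hne i (p.2.mem_toFinset.2 hi) (q.2.mem_toFinset.2 hi')
      exact congrFun heq ⟨i, h1⟩
  exact hunc (Set.countable_of_injective_of_countable_image hinj (Set.to_countable _))

theorem exists_predense (φ : Set (Cond K I)) :
    ∃ A : Set (Cond K I), A.Countable ∧ A ⊆ φ ∧
      ∀ p ∈ φ, ∃ a ∈ A, ∃ r, le Γ T r p ∧ le Γ T r a := by
  have : ∃ A, Maximal (fun A : Set (Cond K I) => A ⊆ φ ∧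
      ∀ p ∈ A, ∀ q ∈ A, p ≠ q → ¬ ∃ r, le Γ T r p ∧ le Γ T r q) A := by
    apply zorn_subset {A : Set (Cond K I) | A ⊆ φ ∧
      ∀ p ∈ A, ∀ q ∈ A, p ≠ q → ¬ ∃ r, le Γ T r p ∧ le Γ T r q}
    intro c hc hchain
    refine ⟨⋃₀ c, ⟨Set.sUnion_subset fun A hA => (hc hA).1, ?_⟩,
      fun s hs => Set.subset_sUnion_of_mem hs⟩
    rintro p ⟨A, hA, hpA⟩ q ⟨B, hB, hqB⟩ hne
    rcases hchain.total hA hB with h | h
    · exact (hc hB).2 p (h hpA) q hqB hne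
    · exact (hc hA).2 p hpA q (h hqB) hne
  obtain ⟨A, ⟨h1, h2⟩, hmax⟩ := this
  refine ⟨A, ?_, h1, fun p hp => ?_⟩
  · by_contra hcon
    obtain ⟨p, hp, q, hq, hne, h⟩ := ccc (Γ := Γ) (T := T) A hcon
    exact h2 p hp q hq hne h
  by_contra hcon
  push Not at hcon
  have hpA : p ∉ A := fun h => hcon p h p (le_refl' T p) (le_refl' T p)
  apply hpA
  refine hmax (y := insert p A) ⟨Set.insert_subset hp h1, ?_⟩ (Set.subset_insert p A)
    (Set.mem_insert p A)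
  rintro x (rfl | hx) y (rfl | hy) hne
  · exact absurd rfl hne
  · rintro ⟨r, hr1, hr2⟩
    exact hcon y hy r hr1 hr2
  · rintro ⟨r, hr1, hr2⟩
    exact hcon x hx r hr2 hr1
  · exact h2 x hx y hy hne

/-- raw names for subsets of `ℕ` -/
theorem exists_raw (hS : IsLowerSet S) (U : ℕ → Set (Cond K I)) (hU : ∀ n, Op Γ S (U n)) :
    ∃ x : Nm K I, Supp S x ∧
      ∀ p, EqAt Γ S p (ofSet U hU hS).val (ofRaw (Γ := Γ) x hS).val := by
  have h1 : ∀ n, ∃ C : Set (Cond K I), C.Countable ∧ C ⊆ U n ∧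
      ∀ p ∈ U n, ∃ a ∈ C, ∃ r, le Γ S r p ∧ le Γ S r a := fun n => exists_predense (U n)
  choose C hC hCU hCd using h1
  have h2 : ∀ n, ∃ g : ℕ → Option (Cond K I), ∀ s, s ∈ C n ↔ ∃ m, g m = some s := by
    intro n
    rcases (C n).eq_empty_or_nonempty with h | h
    · exact ⟨fun _ => none, fun s => by simp [h]⟩
    · obtain ⟨g, hg⟩ := (hC n).exists_eq_range h
      refine ⟨fun n => some (g n), fun s => ?_⟩
      rw [hg]
      simp
  choose g hg using h2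
  refine ⟨fun n m => (g n m).map fun u => mix S u Cond.one, ?_, ?_⟩
  · intro n m u hu i hi
    obtain ⟨v, -, rfl⟩ := Option.map_eq_some_iff.1 hu
    rw [mix_notMem _ _ hi]
    rfl
  · intro p q _ n v v' h3 h4
    rcases Bool.eq_false_or_eq_true v with rfl | rfl <;>
      rcases Bool.eq_false_or_eq_true v' with rfl | rfl
    · rfl
    · exfalso
      have h5 : q ∈ U n := mem_ofSet_true.1 h3
      have h6 := bit_false.1 (mem_ofRaw.1 h4)
      obtain ⟨a, ha, r, hr, hr'⟩ := hCd n q h5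
      obtain ⟨m, hm⟩ := (hg n a).1 ha
      refine h6 r hr m (mix S a Cond.one) (by rw [hm]; rfl) ?_
      exact le_congr hS (fun _ _ => rfl) (fun i hi => (mix_mem a Cond.one hi).symm) hr'
    · exfalso
      have h5 := mem_ofSet_false.1 h3
      obtain ⟨m, u, hu, hle⟩ := bit_true.1 (mem_ofRaw.1 h4)
      obtain ⟨v, hv, rfl⟩ := Option.map_eq_some_iff.1 hu
      refine h5 q (le_refl' S q) (hU n v (hCU n ((hg n v).2 ⟨m, hv⟩)) q ?_)
      exact le_congr hS (fun _ _ => rfl) (fun i hi => mix_mem v Cond.one hi) hle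
    · rfl

/-- every countable subset of `T` is bounded by a member of `T` -/
def CB (T : Set I) : Prop := ∀ C : Set I, C.Countable → C ⊆ T → ∃ δ ∈ T, ∀ i ∈ C, i < δ

theorem exists_bdd (hT : CB T) {δ₀ : I} (h₀ : δ₀ ∈ T) (C : ℕ → Set (Cond K I))
    (hC : ∀ n, (C n).Countable) :
    ∃ δ ∈ T, δ₀ < δ ∧ ∀ n, ∀ c ∈ C n, ∀ p, le Γ (Set.Iio δ) p c → le Γ T p c := by
  have h1 : (insert δ₀ (⋃ n, ⋃ c ∈ C n, ({i | c i ≠ CV.top} ∩ T))).Countable := by
    apply Set.Countable.insert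
    apply Set.countable_iUnion
    intro n
    exact (hC n).biUnion fun c _ => (c.2.countable).mono Set.inter_subset_left
  obtain ⟨δ, hδ, h2⟩ := hT _ h1 (by
    intro i hi
    rcases hi with rfl | hi
    · exact h₀
    rw [Set.mem_iUnion] at hi
    obtain ⟨n, hi⟩ := hi
    rw [Set.mem_iUnion₂] at hi
    obtain ⟨c, _, _, hi⟩ := hi
    exact hi)
  refine ⟨δ, hδ, h2 δ₀ (Set.mem_insert _ _), fun n c hc p hp j hj => ?_⟩
  by_cases h3 : c j = CV.top
  · exact ext_top h3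
  · refine hp j (h2 j (Or.inr ?_))
    rw [Set.mem_iUnion]
    refine ⟨n, ?_⟩
    rw [Set.mem_iUnion₂]
    exact ⟨c, hc, h3, hj⟩

/-- reduction of a name to a smaller set of coordinates -/
theorem VN.reduce (hT : CB T) (hTl : IsLowerSet T) {δ₀ : I} (h₀ : δ₀ ∈ T) (x : VN Γ T X) :
    ∃ δ ∈ T, δ₀ < δ ∧ ∃ z : VN Γ (Set.Iio δ) X, ∀ n a, z.val n a ⊆ x.val n a := by
  have h1 : ∀ n, ∃ C : Set (Cond K I), C.Countable ∧ C ⊆ (⋃ a, x.val n a) ∧
      ∀ p ∈ (⋃ a, x.val n a), ∃ a ∈ C, ∃ r, le Γ T r p ∧ le Γ T r a := fun n =>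
    exists_predense _
  choose C hC hCU hCd using h1
  obtain ⟨δ, hδ, h0, h2⟩ := exists_bdd (Γ := Γ) hT h₀ C hC
  have hsub : Set.Iio δ ⊆ T := fun i hi => hTl (le_of_lt hi) hδ
  have h3 : ∀ n a, {p | ∃ c ∈ C n, c ∈ x.val n a ∧ le Γ (Set.Iio δ) p c} ⊆ x.val n a := by
    rintro n a p ⟨c, hc, hca, hle⟩
    exact x.op n a c hca p (h2 n c hc p hle)
  refine ⟨δ, hδ, h0, ⟨fun n a => {p | ∃ c ∈ C n, c ∈ x.val n a ∧ le Γ (Set.Iio δ) p c}, ?_, ?_, ?_⟩, h3⟩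
  · rintro n a p ⟨c, hc, hca, hle⟩ q hq
    exact ⟨c, hc, hca, le_trans' (lower_Iio δ) hq hle⟩
  · intro n p a a' h h'
    exact x.uniq n p a a' (h3 n a h) (h3 n a' h')
  · intro n p
    obtain ⟨q, hq, a, ha⟩ := x.dense n p
    obtain ⟨c, hc, r, hr, hr'⟩ := hCd n q (Set.mem_iUnion.2 ⟨a, ha⟩)
    obtain ⟨a', ha'⟩ := Set.mem_iUnion.1 (hCU n hc)
    exact ⟨r, le_mono hsub (le_trans' hTl hr hq), a', c, hc, ha', le_mono hsub hr'⟩

theorem BN.reduce (hT : CB T) (hTl : IsLowerSet T) {δ₀ : I} (h₀ : δ₀ ∈ T) (x : BN Γ T) :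
    ∃ δ ∈ T, δ₀ < δ ∧ ∃ z : BN Γ (Set.Iio δ), ∀ n a, z.U n a ⊆ x.U n a := by
  have h1 : ∀ n, ∃ C : Set (Cond K I), C.Countable ∧ C ⊆ (⋃ a, x.U n a) ∧
      ∀ p ∈ (⋃ a, x.U n a), ∃ a ∈ C, ∃ r, le Γ T r p ∧ le Γ T r a := fun n =>
    exists_predense _
  choose C hC hCU hCd using h1
  obtain ⟨δ, hδ, h0, h2⟩ := exists_bdd (Γ := Γ) hT h₀ C hC
  have hsub : Set.Iio δ ⊆ T := fun i hi => hTl (le_of_lt hi) hδ
  have h3 : ∀ n a, {p | ∃ c ∈ C n, c ∈ x.U n a ∧ le Γ (Set.Iio δ) p c} ⊆ x.U n a := by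
    rintro n a p ⟨c, hc, hca, hle⟩
    exact x.op n a c hca p (h2 n c hc p hle)
  refine ⟨δ, hδ, h0, ⟨fun n a => {p | ∃ c ∈ C n, c ∈ x.U n a ∧ le Γ (Set.Iio δ) p c}, ?_, ?_, ?_⟩, h3⟩
  · rintro n a p ⟨c, hc, hca, hle⟩ q hq
    exact ⟨c, hc, hca, le_trans' (lower_Iio δ) hq hle⟩
  · rintro m v v' hv p ⟨c, hc, hca, hle⟩
    exact ⟨c, hc, x.mono m v v' hv hca, hle⟩
  · intro n p
    obtain ⟨q, hq, a, ha⟩ := x.dense n p
    obtain ⟨c, hc, r, hr, hr'⟩ := hCd n q (Set.mem_iUnion.2 ⟨a, ha⟩)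
    obtain ⟨a', ha'⟩ := Set.mem_iUnion.1 (hCU n hc)
    exact ⟨r, le_mono hsub (le_trans' hTl hr hq), a', c, hc, ha', le_mono hsub hr'⟩

end Pool.Agent.H105.AMA
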