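import Pool.Agent.W684.BMA.Defs

/-!
# Additivity and uniformity of the meager-additive sets: the sentence which is forced

Reals are subsets of `ℕ`. The sentence `PsiHolds P K L` of the forcing language is the literal
translation of the proposition `PsiFor K L`: quantifiers over reals and over families of reals
become quantifiers over names.
-/

set_option autoImplicit false

namespace Pool.Agent.H105.AMA

open Pool.Agent.Helper669.Forcing
open Pool.Agent.W684.BMA (Inf Captured InfN CapturedN AllCaptured AllCapturedN)

/-- There are families of reals `x k`, for `k` in `K`, indexed by `L`, such that each of these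
families is captured for all partitions `A`, but the union of these families is not. -/
def UnionNotCaptured (K L : Type) : Prop :=
  ∃ x : K → L → ℕ → Prop,
    (∀ k, ∀ A : ℕ → Prop, Inf A → ∃ B y : ℕ → Prop, Inf B ∧ ∀ l, Captured A B y (x k l)) ∧
    ∃ A : ℕ → Prop, Inf A ∧ ∀ B y : ℕ → Prop, Inf B → ∃ k l, ¬ Captured A B y (x k l)

/-- All families of reals indexed by `K` are captured for all partitions, but the union of `K`
many captured families indexed by `L` need not be captured. -/
def PsiFor (K L : Type) : Prop := AllCaptured K ∧ UnionNotCaptured K L

variable (P : Type) [Preorder P]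

/-- Forcing version of `UnionNotCaptured`. -/
def UnionNotCapturedN (K L : Type) : Set P :=
  fex fun x : K → L → ℕ → Set P => fand
    (fall fun k => fall fun A : ℕ → Set P => fimp (InfN A)
      (fex fun B : ℕ → Set P => fex fun y : ℕ → Set P => fand (InfN B)
        (fall fun l => CapturedN A B y (x k l))))
    (fex fun A : ℕ → Set P => fand (InfN A) (fall fun B : ℕ → Set P => fall fun y : ℕ → Set P =>
      fimp (InfN B) (fex fun k => fex fun l => fnot (CapturedN A B y (x k l)))))

/-- The sentence `PsiFor K L` of the forcing language. -/
def PsiHolds (K L : Type) : Set P := fand (AllCapturedN P K) (UnionNotCapturedN P K L)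

end Pool.Agent.H105.AMA
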