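import Pool.Agent.H105.AMA.Pres

/-!
# Compactness of the pieces: the successor step, common part
-/

set_option autoImplicit false
set_option linter.unusedSectionVars false

namespace Pool.Agent.H105.AMA

open Classical

variable {K I : Type} [LinearOrder I] [WellFoundedLT I] {Γ : Par K I}

theorem exists_list_bound {α : Type} (f : α → ℕ) (l : List α) : ∃ v, ∀ c ∈ l, f c ≤ v := by
  induction l with
  | nil => exact ⟨0, fun c hc => absurd hc List.not_mem_nil⟩
  | cons a l ih =>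
    obtain ⟨v, hv⟩ := ih
    refine ⟨max (f a) v, fun c hc => ?_⟩
    rcases List.mem_cons.1 hc with rfl | hc
    · exact le_max_left _ _
    · exact (hv c hc).trans (le_max_right _ _)

theorem lower_Iic (j : I) : IsLowerSet (Set.Iic j) := isLowerSet_Iic j

theorem dense_fin {T : Set I} (hT : IsLowerSet T) (W : ℕ → ℕ → Set (Cond K I))
    (hop : ∀ i v, Op Γ T (W i v)) (hmono : ∀ i v v', v ≤ v' → W i v ⊆ W i v') (p : Cond K I)
    (hd : ∀ i p', le Γ T p' p → ∃ q, le Γ T q p' ∧ ∃ v, q ∈ W i v) (N : ℕ) :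
    ∃ q, le Γ T q p ∧ ∃ v, ∀ i < N, q ∈ W i v := by
  induction N with
  | zero => exact ⟨p, le_refl' T p, 0, fun i hi => absurd hi (Nat.not_lt_zero i)⟩
  | succ N ih =>
    obtain ⟨q, hq, v, h⟩ := ih
    obtain ⟨r, hr, w, hw⟩ := hd N q hq
    refine ⟨r, le_trans' hT hr hq, max v w, fun i hi => ?_⟩
    rcases Nat.lt_succ_iff_lt_or_eq.1 hi with h' | rfl
    · exact hmono _ _ _ (le_max_left v w) (hop _ _ q (h i h') r hr)
    · exact hmono _ _ _ (le_max_right v w) hw

theorem decide_fin {T : Set I} (hT : IsLowerSet T) (x : ℕ → Nm K I) (n : ℕ) (N : ℕ)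
    (t : Cond K I) : ∃ t', le Γ T t' t ∧ ∀ j < N, ∃ b, Bit (le Γ T) t' (x j) n b := by
  induction N with
  | zero => exact ⟨t, le_refl' T t, fun j hj => absurd hj (Nat.not_lt_zero j)⟩
  | succ N ih =>
    obtain ⟨q, hq, h⟩ := ih
    obtain ⟨r, hr, b, hb⟩ := Bit.dense (T := T) q (x N) n
    refine ⟨r, le_trans' hT hr hq, fun j hj => ?_⟩
    rcases Nat.lt_succ_iff_lt_or_eq.1 hj with h' | rfl
    · obtain ⟨b', hb'⟩ := h j h'
      exact ⟨b', hb'.mono hT hr⟩
    · exact ⟨b, hb⟩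

theorem decide_fin' {T : Set I} (hT : IsLowerSet T) {N : ℕ} (x : Fin N → Nm K I) (n : ℕ)
    (t : Cond K I) : ∃ t', le Γ T t' t ∧ ∃ b : Fin N → Bool,
      ∀ j, Bit (le Γ T) t' (x j) n (b j) := by
  obtain ⟨t', h1, h2⟩ := decide_fin (Γ := Γ) hT
    (fun j => if h : j < N then x ⟨j, h⟩ else fun _ _ => none) n N t
  have h3 : ∀ j : Fin N, ∃ b, Bit (le Γ T) t' (x j) n b := by
    intro j
    obtain ⟨b, hb⟩ := h2 j.1 j.2
    rw [dif_pos j.2] at hb
    exact ⟨b, hb⟩
  choose b hb using h3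
  exact ⟨t', h1, b, hb⟩

section Succ

variable {δ : I}

/-- the node `τ` is secured, for the members of `W` -/
def SecL (δ : I) (φ : BN Γ (Set.Iic δ)) (W : Set (Cond K I)) (m : ℕ) (s : List (List Bool))
    (N : ℕ) (τ : List (Fin N → Bool)) (v : ℕ) : Set (Cond K I) :=
  {t | ∀ (F : Fin N → K) (r : Cond K I), r ∈ W → r δ = ⟨s, List.ofFn F⟩ →
    le Γ (Set.Iio δ) r t →
    (∀ n, ∀ h : n < τ.length, ∀ j, Bit (le Γ (Set.Iio δ)) r (Γ.e δ (F j)) n (τ[n] j)) →
      ∃ r', le Γ (Set.Iic δ) r' r ∧ r' ∈ φ.U m v}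

variable {φ : BN Γ (Set.Iic δ)} {W : Set (Cond K I)} {m : ℕ} {s : List (List Bool)} {N : ℕ}

theorem SecL.op (τ : List (Fin N → Bool)) (L : ℕ) :
    Op Γ (Set.Iio δ) (SecL δ φ W m s N τ L) :=
  fun _ ht _ ht' F r h0 h1 h2 h3 => ht F r h0 h1 (le_trans' (lower_Iio δ) h2 ht') h3

theorem SecL.mono (τ : List (Fin N → Bool)) {L L' : ℕ} (hL : L ≤ L') :
    SecL δ φ W m s N τ L ⊆ SecL δ φ W m s N τ L' := by
  intro t ht F r h0 h1 h2 h3
  obtain ⟨r', h4, h5⟩ := ht F r h0 h1 h2 h3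
  exact ⟨r', h4, φ.mono _ _ _ hL h5⟩

/-- a node all of whose successors are secured is secured -/
theorem SecL.of_succ (hW : ∀ r ∈ W, ∀ t, le Γ (Set.Iio δ) t r → mix (Set.Iio δ) t r ∈ W)
    {τ : List (Fin N → Bool)} {L : ℕ} {t : Cond K I}
    (h : ∀ b, t ∈ SecL δ φ W m s N (τ ++ [b]) L) : t ∈ SecL δ φ W m s N τ L := by
  intro F r h0 h1 h2 h3
  obtain ⟨r0, hr0, b, hb⟩ := decide_fin' (Γ := Γ) (lower_Iio δ) (fun j => Γ.e δ (F j))
    τ.length r
  have h4 : le Γ (Set.Iic δ) (mix (Set.Iio δ) r0 r) r := mix_le (lower_Iio δ) hr0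
  have h5 : le Γ (Set.Iio δ) (mix (Set.Iio δ) r0 r) r0 :=
    le_of_eq (lower_Iio δ) fun i hi => mix_mem _ _ hi
  have h6 : le Γ (Set.Iio δ) (mix (Set.Iio δ) r0 r) r := le_mono Set.Iio_subset_Iic_self h4
  obtain ⟨r', h7, h8⟩ := h b F (mix (Set.Iio δ) r0 r) (hW r h0 r0 hr0)
    (by rw [mix_notMem _ _ (by simp), h1]) (le_trans' (lower_Iio δ) h6 h2) (by
      intro n hn j
      rw [List.length_append, List.length_singleton] at hn
      rcases Nat.lt_succ_iff_lt_or_eq.1 hn with h7 | rfl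
      · rw [List.getElem_append_left h7]
        exact (h3 n h7 j).mono (lower_Iio δ) h6
      · have h8 : (τ ++ [b])[τ.length]'(by simp) = b := by simp
        rw [h8]
        exact (hb j).mono (lower_Iio δ) h5)
  exact ⟨r', le_trans' (lower_Iic δ) h7 h4, h8⟩

/-- no extension secures the node -/
def NS (δ : I) (φ : BN Γ (Set.Iic δ)) (W : Set (Cond K I)) (m : ℕ) (s : List (List Bool)) (N : ℕ)
    (τ : List (Fin N → Bool)) : Set (Cond K I) :=
  {t | ∀ t', le Γ (Set.Iio δ) t' t → ∀ L, t' ∉ SecL δ φ W m s N τ L}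

theorem NS.op (τ : List (Fin N → Bool)) : Op Γ (Set.Iio δ) (NS δ φ W m s N τ) :=
  fun _ ht _ ht' t'' ht'' => ht t'' (le_trans' (lower_Iio δ) ht'' ht')

theorem NS.exists_succ (hW : ∀ r ∈ W, ∀ t, le Γ (Set.Iio δ) t r → mix (Set.Iio δ) t r ∈ W)
    {τ : List (Fin N → Bool)} {t : Cond K I} (ht : t ∈ NS δ φ W m s N τ) :
    ∃ t', le Γ (Set.Iio δ) t' t ∧ ∃ b, t' ∈ NS δ φ W m s N (τ ++ [b]) := by
  by_contra hcon
  have h1 : ∀ b : Fin N → Bool, ∀ t', le Γ (Set.Iio δ) t' t → ∃ t'', le Γ (Set.Iio δ) t'' t' ∧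
      ∃ L, t'' ∈ SecL δ φ W m s N (τ ++ [b]) L := by
    intro b t' ht'
    by_contra h
    exact hcon ⟨t', ht', b, fun t'' ht'' L hL => h ⟨t'', ht'', L, hL⟩⟩
  obtain ⟨B, hB⟩ := exists_list_bound (fun b : Fin N → Bool => Encodable.encode b)
    (Finset.univ : Finset (Fin N → Bool)).toList
  obtain ⟨q, hq, v, hv⟩ := dense_fin (Γ := Γ) (lower_Iio δ)
    (fun i v => {q | ∀ b : Fin N → Bool, Encodable.encode b = i →
      q ∈ SecL δ φ W m s N (τ ++ [b]) v})
    (fun i v p hp q hq b hb => SecL.op _ _ p (hp b hb) q hq)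
    (fun i v v' hv p hp b hb => SecL.mono _ hv (hp b hb)) t
    (fun i p hp => by
      by_cases h : ∃ b : Fin N → Bool, Encodable.encode b = i
      · obtain ⟨b, hb⟩ := h
        obtain ⟨q, hq, L, hL⟩ := h1 b p hp
        refine ⟨q, hq, L, fun b' hb' => ?_⟩
        rw [Encodable.encode_injective (hb'.trans hb.symm)]
        exact hL
      · exact ⟨p, le_refl' _ p, 0, fun b hb => absurd ⟨b, hb⟩ h⟩) (B + 1)
  refine ht q hq v (SecL.of_succ hW fun b => ?_)
  exact hv _ (Nat.lt_succ_of_le (hB b (by simp))) b rfl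

/-- the names of the reals on a branch without secured nodes -/
theorem exists_branch (hW : ∀ r ∈ W, ∀ t, le Γ (Set.Iio δ) t r → mix (Set.Iio δ) t r ∈ W)
    {t : Cond K I} (h0 : t ∈ NS δ φ W m s N []) :
    ∃ U : Fin N → ℕ → Set (Cond K I), (∀ j n, Op Γ (Set.Iio δ) (U j n)) ∧
      ∀ M q, le Γ (Set.Iio δ) q t → ∃ t'', le Γ (Set.Iio δ) t'' q ∧
        ∃ τ : List (Fin N → Bool), τ.length = M ∧ t'' ∈ NS δ φ W m s N τ ∧
          ∀ n, ∀ h : n < τ.length, ∀ j, (τ[n] j = true → t'' ∈ U j n) ∧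
            (τ[n] j = false → ∀ u, le Γ (Set.Iio δ) u t'' → u ∉ U j n) := by
  have hlow := lower_Iio δ
  -- the name of the branch
  obtain ⟨A, hA0, hA⟩ := exists_rec (Γ := Γ) hlow
    (Encodable.encode ([] : List (Fin N → Bool)))
    (fun _ a a' => {t | ∀ τ : List (Fin N → Bool), a = Encodable.encode τ →
      ∃ b, a' = Encodable.encode (τ ++ [b]) ∧ (t ∈ NS δ φ W m s N (τ ++ [b]) ∨
        ∀ t', le Γ (Set.Iio δ) t' t → t' ∉ NS δ φ W m s N τ)})
    (by
      intro _ a a' p hp q hq τ hτ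
      obtain ⟨b, hb, h⟩ := hp τ hτ
      refine ⟨b, hb, ?_⟩
      rcases h with h | h
      · exact Or.inl (NS.op _ p h q hq)
      · exact Or.inr fun t' ht' => h t' (le_trans' hlow ht' hq))
    (by
      intro _ a p
      by_cases h : ∃ τ : List (Fin N → Bool), a = Encodable.encode τ
      · obtain ⟨τ, hτ⟩ := h
        by_cases h1 : ∃ q, le Γ (Set.Iio δ) q p ∧ q ∈ NS δ φ W m s N τ
        · obtain ⟨q, hq, hq'⟩ := h1
          obtain ⟨q', h2, b, h3⟩ := NS.exists_succ hW hq'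
          refine ⟨q', le_trans' hlow h2 hq, Encodable.encode (τ ++ [b]), fun τ' hτ' => ?_⟩
          obtain rfl := Encodable.encode_injective (hτ.symm.trans hτ')
          exact ⟨b, rfl, Or.inl h3⟩
        · refine ⟨p, le_refl' _ p, Encodable.encode (τ ++ [fun _ => false]), fun τ' hτ' => ?_⟩
          obtain rfl := Encodable.encode_injective (hτ.symm.trans hτ')
          exact ⟨_, rfl, Or.inr fun t' ht' h2 => h1 ⟨t', ht', h2⟩⟩
      · exact ⟨p, le_refl' _ p, 0, fun τ hτ => absurd ⟨τ, hτ⟩ h⟩)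
  -- the nodes on the branch
  have hbr : ∀ M q, le Γ (Set.Iio δ) q t → (∀ n < M + 1, ∃ a, q ∈ A.val n a) →
      ∃ τ : List (Fin N → Bool), q ∈ A.val M (Encodable.encode τ) ∧ τ.length = M ∧
        q ∈ NS δ φ W m s N τ ∧ ∀ n ≤ M, q ∈ A.val n (Encodable.encode (τ.take n)) := by
    intro M
    induction M with
    | zero =>
      intro q hq _
      refine ⟨[], hA0 q, rfl, NS.op _ t h0 q hq, fun n hn => ?_⟩
      obtain rfl := Nat.le_zero.1 hn
      exact hA0 q
    | succ M ih =>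
      intro q hq hd
      obtain ⟨τ, h1, h2, h3, h4⟩ := ih q hq fun n hn => hd n (by omega)
      obtain ⟨a, ha⟩ := hd (M + 1) (by omega)
      obtain ⟨b, hb, h5⟩ := hA M q _ a h1 ha τ rfl
      refine ⟨τ ++ [b], hb ▸ ha, by simp [h2], ?_, fun n hn => ?_⟩
      · rcases h5 with h5 | h5
        · exact h5
        · exact absurd h3 (h5 q (le_refl' _ q))
      · rcases Nat.le_succ_iff.1 hn with hn' | rfl
        · rw [List.take_append_of_le_length (by omega)]
          exact h4 n hn'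
        · rw [List.take_of_length_le (by simp [h2]), ← hb]
          exact ha
  -- the names of the reals on the branch
  let U : Fin N → ℕ → Set (Cond K I) := fun j n => {p | ∃ τ : List (Fin N → Bool),
    p ∈ A.val (n + 1) (Encodable.encode τ) ∧ ∃ h : n < τ.length, τ[n] j = true}
  have hU : ∀ j n, Op Γ (Set.Iio δ) (U j n) := by
    rintro j n p ⟨τ, h1, h2⟩ q hq
    exact ⟨τ, A.op _ _ p h1 q hq, h2⟩
  refine ⟨U, hU, fun M q hq => ?_⟩
  obtain ⟨t'', h5, h6⟩ := A.decide hlow hlow (Set.Subset.refl _) (M + 1) q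
  obtain ⟨τ, h7, h8, h9, h10⟩ := hbr M t'' (le_trans' hlow h5 hq) h6
  refine ⟨t'', h5, τ, h8, h9, fun n hn j => ?_⟩
  have h20 := h10 (n + 1) (by omega)
  constructor
  · intro h21
    refine ⟨_, h20, by simp; omega, ?_⟩
    rw [List.getElem_take]
    exact h21
  · rintro h21 u hu ⟨τ', h22, h23, h24⟩
    have h25 := A.uniq (n + 1) u _ _ (A.op _ _ t'' h20 u hu) h22
    obtain rfl := Encodable.encode_injective h25
    rw [List.getElem_take, h21] at h24
    exact Bool.false_ne_true h24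

/-- the index of a raw name which is equal to a given name -/
theorem exists_index (he : ∀ x : Nm K I, Supp (Set.Iio δ) x → ∃ k, Γ.e δ k = x)
    (U : ℕ → Set (Cond K I)) (hU : ∀ n, Op Γ (Set.Iio δ) (U n)) :
    ∃ k, ∀ t n b, Bit (le Γ (Set.Iio δ)) t (Γ.e δ k) n b →
      (t ∈ U n → b = true) ∧ ((∀ u, le Γ (Set.Iio δ) u t → u ∉ U n) → b = false) := by
  have hlow := lower_Iio δ
  obtain ⟨x, hx, hx'⟩ := exists_raw hlow U hU
  obtain ⟨k, rfl⟩ := he x hx
  refine ⟨k, fun t n b hb => ⟨fun ht => ?_, fun ht => ?_⟩⟩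
  · exact (hx' t t (le_refl' _ t) n true b (mem_ofSet_true.2 ht) hb).symm
  · exact (hx' t t (le_refl' _ t) n false b (mem_ofSet_false.2 ht) hb).symm

/-- the capturing posets -/
theorem secured_none (hδ : Γ.typ δ = none)
    (he : ∀ x : Nm K I, Supp (Set.Iio δ) x → ∃ k, Γ.e δ k = x) (φ : BN Γ (Set.Iic δ)) (m : ℕ)
    (s : List (List Bool)) (N : ℕ) (t : Cond K I) :
    ∃ t', le Γ (Set.Iio δ) t' t ∧ ∃ v, t' ∈ SecL δ φ Set.univ m s N [] v := by
  by_contra hcon
  have hlow := lower_Iio δ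
  have h0 : t ∈ NS δ φ Set.univ m s N [] := fun t' ht' L hL => hcon ⟨t', ht', L, hL⟩
  obtain ⟨U, hU, hbr⟩ := exists_branch (fun _ _ _ _ => Set.mem_univ _) h0
  choose F hF using fun j => exists_index he (U j) (hU j)
  obtain ⟨c, h2, v, hv⟩ := φ.dense m (upd t δ ⟨s, List.ofFn F⟩)
  have h2' : le Γ (Set.Iio δ) c t := le_congr hlow (fun _ _ => rfl)
    (fun i hi => upd_of_ne _ _ (ne_of_lt hi)) (le_mono Set.Iio_subset_Iic_self h2)
  obtain ⟨t'', h5, τ, h8, h9, h10⟩ := hbr (len (c δ).stem + 1) c h2'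
  apply h9 t'' (le_refl' _ t'') v
  intro F' r _ hr hrt hdec
  have h13 : ext Γ δ c (upd t δ ⟨s, List.ofFn F⟩) := h2 δ (by simp)
  have hstem : s <+: (c δ).stem := by
    have := ext_stem h13
    rwa [upd_same] at this
  have hrc : le Γ (Set.Iio δ) r c := le_trans' hlow hrt h5
  let r' : Cond K I := upd r δ ⟨(c δ).stem, (c δ).pr ++ List.ofFn F'⟩
  have hr'R : ∀ i ∈ Set.Iio δ, r i = r' i := fun i hi => (upd_of_ne _ _ (ne_of_lt hi)).symm
  have hr'δ : r' δ = ⟨(c δ).stem, (c δ).pr ++ List.ofFn F'⟩ := upd_same _ _ _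
  have hr'r : le Γ (Set.Iio δ) r' r := le_congr hlow hr'R (fun _ _ => rfl) (le_refl' _ r)
  refine ⟨r', ?_, φ.op _ _ c hv r' ?_⟩
  · intro i hi
    rcases (Set.mem_Iic.1 hi).lt_or_eq with h | rfl
    · exact hr'r i h
    · rw [ext_iff, hr, hr'δ]
      refine ⟨hstem, List.subset_append_right _ _, fun k hk => ⟨?_, ?_⟩⟩
      · intro g hg
        rw [hδ] at hg
        exact absurd hg (by simp)
      intro _ t3 ht3 α ξ hα hξ
      obtain ⟨j, rfl⟩ := List.mem_ofFn.1 hk
      have h15 : le Γ (Set.Iio i) t3 r := le_trans' hlow ht3 hr'r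
      have h15c : le Γ (Set.Iio i) t3 c := le_trans' hlow h15 hrc
      -- extend `t3` so that it decides the real of the branch
      obtain ⟨t4, h16, h17⟩ := (ofRaw (Γ := Γ) (Γ.e i (F j)) hlow).decide hlow hlow
        (Set.Subset.refl _) (len (c i).stem + 1) t3
      choose! ξ' hξ' using h17
      have h26 : le Γ (Set.Iio i) t4 t'' := le_trans' hlow h16 (le_trans' hlow h15 hrt)
      have h18 : ∀ n, ∀ hn : n ≤ len (c i).stem, ξ' n = τ[n] j := by
        intro n hn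
        obtain ⟨h19, h20⟩ := h10 n (by omega) j
        obtain ⟨h21, h22⟩ := hF j t4 n (ξ' n) (hξ' n (by omega))
        rcases Bool.eq_false_or_eq_true (τ[n] j) with h23 | h23
        · rw [h23]
          exact h21 (hU j n _ (h19 h23) t4 h26)
        · rw [h23]
          exact h22 fun u hu => h20 h23 u (le_trans' hlow hu h26)
      have h27 : newOK α ξ' s.length (c i).stem := by
        rw [ext_iff, upd_same] at h13
        refine (h13.2.2 (F j) (List.mem_ofFn.2 ⟨j, rfl⟩)).2 hδ t4 ?_ α ξ' ?_ ?_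
        · exact le_trans' hlow h16 h15c
        · intro n hn
          exact (hα n hn).mono hlow h16
        · intro n hn
          exact hξ' n (by omega)
      refine newOK_congr (fun _ _ => rfl) (fun n hn => ?_) h27
      have hn' : n ≤ len (c i).stem := hn
      rw [h18 n hn']
      exact ((hdec n (by omega) j).mono hlow h15).unique (hξ n hn)
  · intro i hi
    rcases (Set.mem_Iic.1 hi).lt_or_eq with h | rfl
    · exact le_trans' hlow hr'r hrc i h
    · apply ext_same_stem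
      · rw [hr'δ]
      · rw [hr'δ]
        exact List.subset_append_left _ _

end Succ

end Pool.Agent.H105.AMA
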