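import Pool.Agent.H105.AMA.Fan

/-!
# The successor step for the thin posets
-/

set_option autoImplicit false
set_option linter.unusedSectionVars false

namespace Pool.Agent.H105.AMA

open Classical

variable {K I : Type} [LinearOrder I] [WellFoundedLT I] {Γ : Par K I} {δ : I}

/-- all promises are settled: after each hit of the stem there are two decided elements of every
promised set -/
def Settled (Γ : Par K I) (g : ℕ → Bool) (δ : I) : Set (Cond K I) :=
  {r | ∀ k ∈ (r δ).pr, Nd (le Γ (Set.Iio δ)) g (Γ.e δ k) → ∀ m < len (r δ).stem,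
    bits (r δ).stem m = true → ∃ b b', m < b ∧ b < b' ∧ b' ≤ len (r δ).stem ∧ g b = true ∧
      g b' = true ∧ Bit (le Γ (Set.Iio δ)) r (Γ.e δ k) b true ∧
        Bit (le Γ (Set.Iio δ)) r (Γ.e δ k) b' true}

theorem Settled.mix {g : ℕ → Bool} {r : Cond K I} (hr : r ∈ Settled Γ g δ) {S : Set I}
    (hS : IsLowerSet S) (hδ : δ ∉ S) {t : Cond K I} (ht : le Γ S t r) :
    mix S t r ∈ Settled Γ g δ := by
  intro k hk hN m hm hb
  rw [mix_notMem _ _ hδ] at hk hm hb ⊢
  obtain ⟨b, b', h1, h2, h3, h4, h5, h6, h7⟩ := hr k hk hN m hm hb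
  have h8 : le Γ (Set.Iio δ) (AMA.mix S t r) r := mix_le hS ht
  exact ⟨b, b', h1, h2, h3, h4, h5, h6.mono (lower_Iio δ) h8, h7.mono (lower_Iio δ) h8⟩

theorem len_snoc (s : List (List Bool)) (β : List Bool) : len (s ++ [β]) = len s + β.length := by
  simp [len]

theorem bits_snoc (s : List (List Bool)) (β : List Bool) {n : ℕ} (hn : len s ≤ n) :
    bits (s ++ [β]) n = β.getD (n - len s) false := by
  rw [bits, List.flatten_append, List.getD_append_right _ _ _ _ hn]
  simp [len]

/-- the extension of the stem by zeros, up to the length `M` -/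
def pad (s : List (List Bool)) (M : ℕ) : List (List Bool) :=
  s ++ [List.replicate (M - len s) false]

theorem pad_prefix (s : List (List Bool)) (M : ℕ) : s <+: pad s M := List.prefix_append _ _

theorem len_pad (s : List (List Bool)) {M : ℕ} (h : len s ≤ M) : len (pad s M) = M := by
  rw [pad, len_snoc, List.length_replicate]
  omega

theorem bits_pad (s : List (List Bool)) (M : ℕ) {n : ℕ} (hn : len s ≤ n) :
    bits (pad s M) n = false := by
  rw [pad, bits_snoc s _ hn]
  rcases lt_or_ge (n - len s) (M - len s) with h | h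
  · rw [List.getD_eq_getElem _ _ (by rw [List.length_replicate]; exact h)]
    simp
  · rw [List.getD_eq_default _ _ (by rw [List.length_replicate]; exact h)]

theorem exists_two (g : ℕ → Bool) (F : List K) (l : ℕ) (p : Cond K I) :
    ∃ t, le Γ (Set.Iio δ) t p ∧ ∃ M, l ≤ M ∧ ∀ k ∈ F, Nd (le Γ (Set.Iio δ)) g (Γ.e δ k) →
      ∃ b b', l ≤ b ∧ b < b' ∧ b' ≤ M ∧ g b = true ∧ g b' = true ∧
        Bit (le Γ (Set.Iio δ)) t (Γ.e δ k) b true ∧
          Bit (le Γ (Set.Iio δ)) t (Γ.e δ k) b' true := by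
  have hlow := lower_Iio δ
  induction F with
  | nil => exact ⟨p, le_refl' _ p, l, le_rfl, fun k hk => absurd hk List.not_mem_nil⟩
  | cons k F ih =>
    obtain ⟨t, ht, M, hM, h⟩ := ih
    by_cases hN : Nd (le Γ (Set.Iio δ)) g (Γ.e δ k)
    · obtain ⟨t1, ht1, b, hb, hgb, hb1⟩ := hN t l
      obtain ⟨t2, ht2, b', hb', hgb', hb2⟩ := hN t1 (b + 1)
      have ht21 : le Γ (Set.Iio δ) t2 t := le_trans' hlow ht2 ht1
      refine ⟨t2, le_trans' hlow ht21 ht, max M b', hM.trans (le_max_left _ _), ?_⟩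
      intro k' hk' hN'
      rcases List.mem_cons.1 hk' with rfl | hk'
      · exact ⟨b, b', hb, by omega, le_max_right _ _, hgb, hgb', hb1.mono hlow ht2, hb2⟩
      · obtain ⟨c, c', h1, h2, h3, h4, h5, h6, h7⟩ := h k' hk' hN'
        exact ⟨c, c', h1, h2, h3.trans (le_max_left _ _), h4, h5, h6.mono hlow ht21,
          h7.mono hlow ht21⟩
    · refine ⟨t, ht, M, hM, ?_⟩
      intro k' hk' hN'
      rcases List.mem_cons.1 hk' with rfl | hk'
      · exact absurd hN' hN
      · exact h k' hk' hN'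

/-- extension of a thin stem -/
theorem thin_ext {g : ℕ → Bool} (hδ : Γ.typ δ = some g) {q p : Cond K I} {s' : List (List Bool)}
    (hq : q δ = ⟨s', (p δ).pr⟩) (hs : (p δ).stem <+: s')
    (h : ∀ k ∈ (p δ).pr, Nd (le Γ (Set.Iio δ)) g (Γ.e δ k) → ∀ t, le Γ (Set.Iio δ) t q →
      ∀ ξ : ℕ → Bool, (∀ n ≤ len s', Bit (le Γ (Set.Iio δ)) t (Γ.e δ k) n (ξ n)) →
        thinOK g ξ (len (p δ).stem) s') : ext Γ δ q p := by
  rw [ext_iff, hq]
  refine ⟨hs, List.Subset.refl _, fun k hk => ⟨?_, ?_⟩⟩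
  · intro g' hg' hN t ht ξ hξ
    rw [hδ] at hg'
    obtain rfl := Option.some_injective _ hg'
    exact h k hk hN t ht ξ hξ
  · intro hn
    rw [hδ] at hn
    exact absurd hn (by simp)

/-- the settled conditions are dense -/
theorem exists_settled {g : ℕ → Bool} (hδ : Γ.typ δ = some g) (p : Cond K I) (L : ℕ) :
    ∃ q : Cond K I, (∀ i, ext Γ i q p) ∧ q ∈ Settled Γ g δ ∧ L ≤ len (q δ).stem := by
  have hlow := lower_Iio δ
  obtain ⟨t, ht, M, hM, h⟩ := exists_two (Γ := Γ) (δ := δ) g (p δ).pr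
    (max L (len (p δ).stem)) p
  have hM1 : L ≤ M := (le_max_left _ _).trans hM
  have hM2 : len (p δ).stem ≤ M := (le_max_right _ _).trans hM
  let q : Cond K I := upd (mix (Set.Iio δ) t p) δ ⟨pad (p δ).stem M, (p δ).pr⟩
  have hqδ : q δ = ⟨pad (p δ).stem M, (p δ).pr⟩ := upd_same _ _ _
  have hqt : le Γ (Set.Iio δ) q t := le_of_eq hlow fun i hi => by
    rw [show q i = mix (Set.Iio δ) t p i from upd_of_ne _ _ (ne_of_lt hi), mix_mem _ _ hi]
  refine ⟨q, fun i => ?_, ?_, ?_⟩
  · rcases lt_trichotomy i δ with hi | rfl | hi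
    · exact le_trans' hlow hqt ht i hi
    · refine thin_ext hδ hqδ (pad_prefix _ _) fun k _ _ u _ ξ _ => ?_
      intro m n _ h2 _ _ h5
      rw [bits_pad _ _ h2] at h5
      exact absurd h5 (by simp)
    · have hqi : q i = p i := by
        rw [show q i = mix (Set.Iio δ) t p i from upd_of_ne _ _ (ne_of_gt hi),
          mix_notMem _ _ (by simp [hi.le])]
      exact ext_same_stem (by rw [hqi]) (by rw [hqi]; exact fun _ h => h)
  · intro k hk hN m hm hb
    rw [hqδ] at hk hm hb ⊢
    simp only at hk hm hb ⊢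
    rw [len_pad _ hM2] at hm ⊢
    obtain ⟨b, b', h1, h2, h3, h4, h5, h6, h7⟩ := h k hk hN
    have hm' : m < len (p δ).stem := by
      by_contra hcon
      rw [bits_pad _ _ (not_lt.1 hcon)] at hb
      exact absurd hb (by simp)
    exact ⟨b, b', hm'.trans_le ((le_max_right _ _).trans h1), h2, h3, h4, h5,
      h6.mono hlow hqt, h7.mono hlow hqt⟩
  · rw [hqδ]
    simp only
    rw [len_pad _ hM2]
    exact hM1

theorem secured_some {g : ℕ → Bool} (hδ : Γ.typ δ = some g)
    (he : ∀ x : Nm K I, Supp (Set.Iio δ) x → ∃ k, Γ.e δ k = x) (φ : BN Γ (Set.Iic δ)) (m : ℕ)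
    (s : List (List Bool)) (N : ℕ) (t : Cond K I) :
    ∃ t', le Γ (Set.Iio δ) t' t ∧ ∃ v, t' ∈ SecL δ φ (Settled Γ g δ) m s N [] v := by
  by_contra hcon
  have hlow := lower_Iio δ
  have h0 : t ∈ NS δ φ (Settled Γ g δ) m s N [] := fun t' ht' L hL => hcon ⟨t', ht', L, hL⟩
  obtain ⟨U, hU, hbr⟩ := exists_branch
    (fun r hr t ht => Settled.mix hr hlow (by simp) ht) h0
  -- the sets are infinite or bounded
  obtain ⟨t1, ht1, C, hC⟩ := dense_fin (Γ := Γ) hlow
    (fun i v => {u | ∀ h : i < N, (∀ u', le Γ (Set.Iio δ) u' u → ∀ N', ∃ u'',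
      le Γ (Set.Iio δ) u'' u' ∧ ∃ n, N' ≤ n ∧ g n = true ∧ u'' ∈ U ⟨i, h⟩ n) ∨
        (∀ n, v ≤ n → g n = true → ∀ u', le Γ (Set.Iio δ) u' u → u' ∉ U ⟨i, h⟩ n)})
    (by
      intro i v p hp q hq h
      rcases hp h with h1 | h1
      · exact Or.inl fun u' hu' => h1 u' (le_trans' hlow hu' hq)
      · exact Or.inr fun n hn hg u' hu' => h1 n hn hg u' (le_trans' hlow hu' hq))
    (by
      intro i v v' hv p hp h
      rcases hp h with h1 | h1
      · exact Or.inl h1
      · exact Or.inr fun n hn => h1 n (hv.trans hn)) t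
    (by
      intro i p' _
      by_cases h : i < N
      · by_cases h1 : ∃ u, le Γ (Set.Iio δ) u p' ∧ ∃ v, ∀ n, v ≤ n → g n = true →
            ∀ u', le Γ (Set.Iio δ) u' u → u' ∉ U ⟨i, h⟩ n
        · obtain ⟨u, hu, v, hv⟩ := h1
          exact ⟨u, hu, v, fun _ => Or.inr hv⟩
        · refine ⟨p', le_refl' _ p', 0, fun _ => Or.inl fun u' hu' N' => ?_⟩
          by_contra h2
          exact h1 ⟨u', hu', N', fun n hn hg u'' hu'' hU'' => h2 ⟨u'', hu'', n, hn, hg, hU''⟩⟩
      · exact ⟨p', le_refl' _ p', 0, fun h' => absurd h' h⟩) N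
  -- the names used as promises
  have hU' : ∀ j n, Op Γ (Set.Iio δ)
      {u | u ∈ U j n ∨ ∀ u', le Γ (Set.Iio δ) u' u → ¬ le Γ (Set.Iio δ) u' t1} := by
    rintro j n p (hp | hp) q hq
    · exact Or.inl (hU j n p hp q hq)
    · exact Or.inr fun u' hu' => hp u' (le_trans' hlow hu' hq)
  choose F hF using fun j => exists_index he _ (hU' j)
  let s1 := pad s (max C (len s))
  have hs1 : len s1 = max C (len s) := len_pad _ (le_max_right _ _)
  obtain ⟨c, h2, v, hv⟩ := φ.dense m (upd t1 δ ⟨s1, List.ofFn F⟩)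
  have h2' : le Γ (Set.Iio δ) c t1 := le_congr hlow (fun _ _ => rfl)
    (fun i hi => upd_of_ne _ _ (ne_of_lt hi)) (le_mono Set.Iio_subset_Iic_self h2)
  obtain ⟨t'', h5, τ, h8, h9, h10⟩ := hbr (len (c δ).stem + 1) c (le_trans' hlow h2' ht1)
  have ht''1 : le Γ (Set.Iio δ) t'' t1 := le_trans' hlow h5 h2'
  apply h9 t'' (le_refl' _ t'') v
  intro F' r hset hr hrt hdec
  have h13 : ext Γ δ c (upd t1 δ ⟨s1, List.ofFn F⟩) := h2 δ (by simp)
  have hstem1 : s1 <+: (c δ).stem := by
    have := ext_stem h13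
    rwa [upd_same] at this
  have hstem : s <+: (c δ).stem := (pad_prefix _ _).trans hstem1
  have hrc : le Γ (Set.Iio δ) r c := le_trans' hlow hrt h5
  let r' : Cond K I := upd r δ ⟨(c δ).stem, (c δ).pr ++ List.ofFn F'⟩
  have hr'R : ∀ i ∈ Set.Iio δ, r i = r' i := fun i hi => (upd_of_ne _ _ (ne_of_lt hi)).symm
  have hr'δ : r' δ = ⟨(c δ).stem, (c δ).pr ++ List.ofFn F'⟩ := upd_same _ _ _
  have hr'r : le Γ (Set.Iio δ) r' r := le_congr hlow hr'R (fun _ _ => rfl) (le_refl' _ r)
  refine ⟨r', ?_, φ.op _ _ c hv r' ?_⟩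
  · intro i hi
    rcases (Set.mem_Iic.1 hi).lt_or_eq with h | rfl
    · exact hr'r i h
    rw [ext_iff, hr, hr'δ]
    refine ⟨hstem, List.subset_append_right _ _, fun k hk => ⟨?_, ?_⟩⟩
    swap
    · intro hn
      rw [hδ] at hn
      exact absurd hn (by simp)
    intro g' hg' hN t3 ht3 ξ hξ
    rw [hδ] at hg'
    obtain rfl := Option.some_injective _ hg'
    obtain ⟨j, rfl⟩ := List.mem_ofFn.1 hk
    simp only at hξ ⊢
    have h15 : le Γ (Set.Iio i) t3 r := le_trans' hlow ht3 hr'r
    have h15c : le Γ (Set.Iio i) t3 c := le_trans' hlow h15 hrc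
    have hξτ : ∀ n, ∀ hn : n ≤ len (c i).stem, ξ n = τ[n] j := by
      intro n hn
      exact (hξ n hn).unique ((hdec n (by omega) j).mono hlow h15)
    intro m' n hm'n hsn hnc hbm hbn b hmb hbn' hgb hξb
    have hn1 : len s1 ≤ n := by
      by_contra hcon
      rw [bits_prefix hstem1 (not_le.1 hcon), bits_pad _ _ hsn] at hbn
      exact absurd hbn (by simp)
    rcases lt_or_ge m' (len s) with hm's | hm's
    · -- an old hit
      have hbm' : bits (r i).stem m' = true := by
        rw [hr]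
        simp only
        rw [← bits_prefix hstem hm's, hbm]
      obtain ⟨b1, b2, h21, h22, h23, h24, h25, h26, h27⟩ := hset (F' j)
        (by rw [hr]; exact List.mem_ofFn.2 ⟨j, rfl⟩) hN m' (by rw [hr]; exact hm's) hbm'
      rw [hr] at h23
      simp only at h23
      have h28 : len s ≤ len (c i).stem := len_prefix hstem
      have h29 : ξ b1 = true := (hξ b1 (by omega)).unique (h26.mono hlow h15)
      have h30 : ξ b2 = true := (hξ b2 (by omega)).unique (h27.mono hlow h15)
      by_cases h31 : b = b1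
      · exact ⟨b2, by omega, by omega, by omega, h25, h30⟩
      · exact ⟨b1, h21, by omega, fun h => h31 h.symm, h24, h29⟩
    · have hm1 : len s1 ≤ m' := by
        by_contra hcon
        rw [bits_prefix hstem1 (not_le.1 hcon), bits_pad _ _ hm's] at hbm
        exact absurd hbm (by simp)
      rcases hC j.1 j.2 j.2 with ha | hb
      · -- infinitely many elements
        have hNF : Nd (le Γ (Set.Iio i)) g (Γ.e i (F j)) := by
          intro t2 N'
          have h21 : ∃ t3, le Γ (Set.Iio i) t3 t2 ∧ ∃ n, N' ≤ n ∧ g n = true ∧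
              (t3 ∈ U j n ∨ ∀ u', le Γ (Set.Iio i) u' t3 → ¬ le Γ (Set.Iio i) u' t1) := by
            by_cases h22 : ∃ u, le Γ (Set.Iio i) u t2 ∧ le Γ (Set.Iio i) u t1
            · obtain ⟨u, hu, hu'⟩ := h22
              obtain ⟨u2, h23, n, h24, h25, h26⟩ := ha u hu' N'
              exact ⟨u2, le_trans' hlow h23 hu, n, h24, h25, Or.inl h26⟩
            · obtain ⟨_, _, n, h24, h25, _⟩ := ha t1 (le_refl' _ t1) N'
              exact ⟨t2, le_refl' _ t2, n, h24, h25,
                Or.inr fun u' hu' hu'' => h22 ⟨u', hu', hu''⟩⟩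
          obtain ⟨t3, h22, n, h23, h24, h25⟩ := h21
          obtain ⟨t4, h26, b, hb⟩ := Bit.dense (Γ := Γ) (T := Set.Iio i) t3 (Γ.e i (F j)) n
          have h27 : b = true := (hF j t4 n b hb).1 (hU' j n t3 h25 t4 h26)
          subst h27
          exact ⟨t4, le_trans' hlow h26 h22, n, h23, h24, hb⟩
        -- extend `t3` so that it decides the real of the branch
        obtain ⟨t4, h16, h17⟩ := (ofRaw (Γ := Γ) (Γ.e i (F j)) hlow).decide hlow hlow
          (Set.Subset.refl _) (len (c i).stem + 1) t3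
        choose! ξ' hξ' using h17
        have h26 : le Γ (Set.Iio i) t4 t'' := le_trans' hlow h16 (le_trans' hlow h15 hrt)
        have h18 : ∀ n, ∀ hn : n ≤ len (c i).stem, ξ' n = τ[n] j := by
          intro n hn
          obtain ⟨h19, h20⟩ := h10 n (by omega) j
          obtain ⟨h21, h22⟩ := hF j t4 n (ξ' n) (hξ' n (by omega))
          rcases Bool.eq_false_or_eq_true (τ[n] j) with h23 | h23
          · rw [h23]
            exact h21 (Or.inl (hU j n _ (h19 h23) t4 h26))
          · rw [h23]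
            refine h22 fun u hu hmem => ?_
            rcases hmem with h24 | h24
            · exact h20 h23 u (le_trans' hlow hu h26) h24
            · exact h24 u (le_refl' _ u) (le_trans' hlow hu (le_trans' hlow h26 ht''1))
        have h27 : thinOK g ξ' (len s1) (c i).stem := by
          rw [ext_iff, upd_same] at h13
          refine (h13.2.2 (F j) (List.mem_ofFn.2 ⟨j, rfl⟩)).1 g hδ hNF t4 ?_ ξ' ?_
          · exact le_trans' hlow h16 h15c
          · intro n hn
            exact hξ' n (by omega)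
        obtain ⟨b', h31, h32, h33, h34, h35⟩ := h27 m' n hm'n hn1 hnc hbm hbn b hmb hbn' hgb
          (by rw [h18 b (by omega), ← hξτ b (by omega), hξb])
        exact ⟨b', h31, h32, h33, h34, by
          rw [hξτ b' (by omega), ← h18 b' (by omega), h35]⟩
      · -- bounded
        exfalso
        have h21 : C ≤ b := by
          have := le_max_left C (len s)
          omega
        have h22 : τ[b] j = true := by rw [← hξτ b (by omega), hξb]
        exact hb b h21 hgb t'' ht''1 ((h10 b (by omega) j).1 h22)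
  · intro i hi
    rcases (Set.mem_Iic.1 hi).lt_or_eq with h | rfl
    · exact le_trans' hlow hr'r hrc i h
    · apply ext_same_stem
      · rw [hr'δ]
      · rw [hr'δ]
        exact List.subset_append_left _ _

end Pool.Agent.H105.AMA
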