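import Pool.Agent.H105.AMA.Supports

/-!
# Introduction and elimination of the sentence `Captured`
-/

set_option autoImplicit false
set_option linter.unusedSectionVars false

namespace Pool.Agent.H105.AMA

open Classical Cardinal Pool.Agent.Helper669.Forcing
open Pool.Agent.W684.BMA (Inf Next Captured InfN NextN CapturedN AllCaptured AllCapturedN fiff)

variable {P : Type} [Preorder P]

theorem captured_elim {A B y x : ℕ → Set P} {p : P} (h : p ∈ CapturedN A B y x) {r : P}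
    (hr : r ≤ p) : ∃ r' ≤ r, ∃ N, ∀ s ≤ r', ∀ b, N ≤ b → s ∈ meets (B b) → ∃ s' ≤ s, ∃ a a',
      b ≤ a ∧ s' ∈ NextN A a a' ∧ (∀ b', ∀ u ≤ s', u ∈ meets (B b') → b' ≤ b ∨ a' ≤ b') ∧
        ∀ n, a ≤ n → n < a' → ∀ u ≤ s', (u ∈ meets (x n) ↔ u ∈ meets (y n)) := by
  obtain ⟨r', hr', N, hN⟩ := mem_fex.1 h r hr
  refine ⟨r', hr', N, fun s hs b hb hsb => ?_⟩
  obtain ⟨s1, hs1, h1⟩ := mem_fimp.1 (hN b) s hs hb
  obtain ⟨s2, hs2, h2⟩ := mem_fimp.1 h1 s1 le_rfl (down_meets _ _ hsb s1 hs1)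
  obtain ⟨s3, hs3, a, h3⟩ := mem_fex.1 h2 s2 le_rfl
  obtain ⟨s4, hs4, a', h4, h5, h6, h7⟩ := mem_fex.1 h3 s3 le_rfl
  refine ⟨s4, hs4.trans (hs3.trans (hs2.trans hs1)), a, a', h4, h5, fun b' u hu hub => ?_,
    fun n hn hn' u hu => ?_⟩
  · obtain ⟨w, _, hw⟩ := mem_fimp.1 (h6 b') u hu hub
    exact hw
  · constructor
    · intro hux
      refine Pool.Agent.W684.FM.meets_of_dense fun q hq => ?_
      obtain ⟨w, hw, hw'⟩ := mem_fimp.1 (h7 n) q (hq.trans hu) ⟨hn, hn'⟩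
      obtain ⟨v, hv, hv'⟩ := mem_fimp.1 hw'.1 w le_rfl (down_meets _ _ hux w (hw.trans hq))
      exact ⟨v, hv.trans hw, hv'⟩
    · intro hux
      refine Pool.Agent.W684.FM.meets_of_dense fun q hq => ?_
      obtain ⟨w, hw, hw'⟩ := mem_fimp.1 (h7 n) q (hq.trans hu) ⟨hn, hn'⟩
      obtain ⟨v, hv, hv'⟩ := mem_fimp.1 hw'.2 w le_rfl (down_meets _ _ hux w (hw.trans hq))
      exact ⟨v, hv.trans hw, hv'⟩

theorem captured_intro {A B y x : ℕ → Set P} {p : P} (h : ∀ r ≤ p, ∃ r' ≤ r, ∃ N, ∀ s ≤ r',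
    ∀ b, N ≤ b → s ∈ meets (B b) → ∃ s' ≤ s, ∃ a a',
      b ≤ a ∧ s' ∈ NextN A a a' ∧ (∀ b', ∀ u ≤ s', u ∈ meets (B b') → b' ≤ b ∨ a' ≤ b') ∧
        ∀ n, a ≤ n → n < a' → ∀ u ≤ s', (u ∈ meets (x n) ↔ u ∈ meets (y n))) :
    p ∈ CapturedN A B y x := by
  refine mem_fex.2 fun r hr => ?_
  obtain ⟨r', hr', N, hN⟩ := h r hr
  refine ⟨r', hr', N, fun b => ?_⟩
  refine mem_fimp.2 fun q hq hNb => ⟨q, le_rfl, ?_⟩
  refine mem_fimp.2 fun s hs hsb => ?_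
  obtain ⟨s', hs', a, a', h1, h2, h3, h4⟩ := hN s (hs.trans hq) b hNb hsb
  have hnext : Down (NextN A a a') := down_fand (down_fground _) (down_fand (down_meets _)
    (down_fand (down_meets _) (down_fall fun _ => down_fimp _ _)))
  refine ⟨s', hs', mem_fex_of_mem a (down_fex _) (mem_fex_of_mem a' (down_fand (down_fground _)
    (down_fand hnext (down_fand (down_fall fun _ => down_fimp _ _)
      (down_fall fun _ => down_fimp _ _)))) ⟨h1, h2, fun b' => ?_, fun n => ?_⟩)⟩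
  · exact mem_fimp.2 fun u hu hub => ⟨u, le_rfl, h3 b' u hu hub⟩
  · refine mem_fimp.2 fun u hu hn => ⟨u, le_rfl, ?_⟩
    exact ⟨mem_fimp.2 fun w hw hwx => ⟨w, le_rfl, (h4 n hn.1 hn.2 w (hw.trans hu)).1 hwx⟩,
      mem_fimp.2 fun w hw hwx => ⟨w, le_rfl, (h4 n hn.1 hn.2 w (hw.trans hu)).2 hwx⟩⟩

end Pool.Agent.H105.AMA
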