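import Pool.Agent.W684.BMA.Inv
import Pool.Agent.H105.AMA.Defs

/-!
# The cardinal characteristics
-/

set_option autoImplicit false
set_option linter.unusedSectionVars false

namespace Pool.Agent.H105.AMA

open Classical Cardinal Pointwise
open Pool.Agent.W684.BMA (Inf Captured AllCaptured MeagerAdditive MASets additivity Cant toP
  toP_iff meagerAdditive_of_captured captured_of_meagerAdditive not_meagerAdditive_univ)

/-- The uniformity of an ideal: the least size of a set which is not in the ideal. -/
noncomputable def uniformity (J : Set (Set (ℕ → ZMod 2))) : Cardinal.{0} :=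
  sInf {c | ∃ X : Set (ℕ → ZMod 2), X ∉ J ∧ #X = c}

theorem uniformity_MA_mem : ∃ X : Set (ℕ → ZMod 2), ¬ MeagerAdditive X ∧
    #X = uniformity MASets := by
  have : uniformity MASets ∈ {c | ∃ X : Set (ℕ → ZMod 2), X ∉ MASets ∧ #X = c} :=
    csInf_mem ⟨_, Set.univ, not_meagerAdditive_univ, rfl⟩
  exact this

/-- small sets are meager-additive -/
theorem meagerAdditive_of_small {K : Type} (hall : AllCaptured K) {X : Set (ℕ → ZMod 2)}
    (hX : #X ≤ #K) : MeagerAdditive X := by
  apply meagerAdditive_of_captured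
  intro A hA
  rcases X.eq_empty_or_nonempty with h4 | h4
  · exact ⟨A, A, hA, fun x hx => by rw [h4] at hx; exact absurd hx (Set.notMem_empty x)⟩
  · obtain ⟨ι⟩ := hX
    have hne : Nonempty X := h4.to_subtype
    obtain ⟨B, y, hB, h5⟩ := hall (fun k => toP (Function.invFun ι k).1) A hA
    refine ⟨B, y, hB, fun x hx => ?_⟩
    have h6 := h5 (ι ⟨x, hx⟩)
    rwa [Function.leftInverse_invFun ι.injective] at h6

/-- the combinatorial sentence implies `add(MA) < non(MA)` -/
theorem additivity_lt {K L : Type} (h : PsiFor K L) :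
    additivity MASets < uniformity MASets := by
  obtain ⟨hall, x, hx, A, hA, hnot⟩ := h
  let z : K → L → ℕ → ZMod 2 := fun k l n => if x k l n then 1 else 0
  have hz : ∀ k l, toP (z k l) = x k l := by
    intro k l
    funext n
    unfold toP
    by_cases hn : x k l n
    · simp [z, hn]
    · simp [z, hn]
  have h1 : additivity MASets ≤ #K := by
    refine (csInf_le' (a := #(Set.range fun k => Set.range (z k))) ?_).trans Cardinal.mk_range_le
    refine ⟨_, ?_, rfl, fun hM => ?_⟩
    · rintro _ ⟨k, rfl⟩
      apply meagerAdditive_of_captured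
      intro A' hA'
      obtain ⟨B, y, hB, hc⟩ := hx k A' hA'
      refine ⟨B, y, hB, ?_⟩
      rintro _ ⟨l, rfl⟩
      rw [hz]
      exact hc l
    · obtain ⟨B, y, hB, hc⟩ := captured_of_meagerAdditive hM hA
      obtain ⟨k, l, hkl⟩ := hnot B y hB
      apply hkl
      rw [← hz]
      exact hc _ ⟨_, ⟨k, rfl⟩, l, rfl⟩
  refine h1.trans_lt ?_
  obtain ⟨X, hX, hX'⟩ := uniformity_MA_mem
  rw [← hX']
  by_contra hcon
  exact hX (meagerAdditive_of_small hall (not_lt.1 hcon))

end Pool.Agent.H105.AMA
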