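import Pool.Agent.H105.AMA.XNot
import Pool.Agent.H105.AMA.Defs

/-!
# The forcing theorem
-/

set_option autoImplicit false
set_option linter.unusedSectionVars false
set_option linter.deprecated false

namespace Pool.Agent.H105.AMA

open Classical Cardinal Pool.Agent.Helper669.Forcing
open Pool.Agent.W684.BMA (Inf Next Captured InfN NextN CapturedN AllCaptured AllCapturedN fiff)

variable {K I : Type} [LinearOrder I] [WellFoundedLT I] {Γ : Par K I}

theorem allCapturedN [Infinite K] (hΓ : Full Γ) (hI : Pool.Agent.W684.FM.Bdd K I)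
    (hA : ∀ (x : Nm K I) (β δ : I), Supp (Set.Iio δ) x →
      ∃ j, β ≤ j ∧ Γ.typ j = none ∧ Γ.A j = x)
    (p : PP Γ) : p ∈ AllCapturedN (PP Γ) K := by
  intro x A
  refine mem_fimp.2 fun q _ hq => ⟨q, le_rfl, ?_⟩
  obtain ⟨a, ha⟩ := exists_raw_name A
  have ha' : Rep Γ a A := ha
  choose X hX using fun k => exists_raw_name (x k)
  obtain ⟨δ, hδ⟩ := exists_supp hI (J := Option K) (by
    rw [Cardinal.mk_option]
    calc #K + 1 ≤ #K + #K := add_le_add le_rfl
          (Cardinal.one_le_aleph0.trans (Cardinal.aleph0_le_mk K))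
      _ = #K := Cardinal.add_eq_self (Cardinal.aleph0_le_mk K)) fun k => k.elim a X
  obtain ⟨j, hj, hτ, hjA⟩ := hA a δ δ (hδ δ le_rfl none)
  have hrep : Rep Γ (Γ.A j) A := hjA ▸ ha'
  have hs : Supp (Set.Iio j) (Γ.A j) := hjA ▸ hδ j hj none
  refine mem_fex_of_mem (genB Γ j) (down_fex _) ?_
  refine mem_fex_of_mem (genY Γ j) (down_fand (Pool.Agent.H105.AMA.down_InfN _)
    (down_fall fun _ => Pool.Agent.H105.AMA.down_CapturedN _ _ _ _))
    ⟨infN_genB hτ hrep hs hq, fun k => ?_⟩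
  have hk : Supp (Set.Iio j) (X k) := hδ j hj (some k)
  obtain ⟨k', hk'⟩ := hΓ j (X k) hk
  have hXk : Rep Γ (X k) (x k) := hX k
  exact captured_gen hτ hrep hs hq (hk' ▸ hXk) (hk' ▸ hk)

theorem unionNotCapturedN {Γ : Par (ℕ → Bool) I} (hΓ : Full Γ)
    (hI : Pool.Agent.W684.FM.Bdd (ℕ → Bool) I)
    (hA : ∀ (x : Nm (ℕ → Bool) I) (β δ : I), Supp (Set.Iio δ) x →
      ∃ j, β ≤ j ∧ Γ.typ j = none ∧ Γ.A j = x)
    (hT : ∀ g : ℕ → Bool, (∀ N, ∃ n, N ≤ n ∧ g n = true) → ∀ β, ∃ j, β ≤ j ∧ Γ.typ j = some g)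
    (hT' : ∀ j g, Γ.typ j = some g → ∀ N, ∃ n, N ≤ n ∧ g n = true)
    (p : PP Γ) : p ∈ UnionNotCapturedN (PP Γ) (ℕ → Bool) I := by
  refine mem_fex_of_mem (fun g i => famX Γ g i) (down_fand
    (down_fall fun _ => down_fall fun _ => down_fimp _ _) (down_fex _)) ⟨fun g A => ?_, ?_⟩
  · refine mem_fimp.2 fun q _ hq => ⟨q, le_rfl, ?_⟩
    obtain ⟨B, y, hB, hcap⟩ : ∃ B y : ℕ → Set (PP Γ), q ∈ InfN B ∧
        ∀ i, q ∈ CapturedN A B y (famX Γ g i) := by
      by_cases hg : ∀ N, ∃ n, N ≤ n ∧ g n = true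
      · exact famX_captured hΓ hI hA hg hq
      · have h1 : ∀ i, famX Γ g i = fun _ => ∅ := fun i => by
          rw [famX, if_neg fun h => hg (hT' i g h)]
        obtain ⟨B, y, hB, hcap⟩ := famX_captured (g := fun _ => true) hΓ hI hA
          (fun N => ⟨N, le_rfl, rfl⟩) hq
        obtain ⟨j, hj⟩ : ∃ j, Γ.typ j = none := by
          obtain ⟨a, ha⟩ := exists_raw_name A
          obtain ⟨δ, hδ⟩ := exists_supp hI (J := Unit)
            (by simpa using (Cardinal.one_le_aleph0.trans (Cardinal.aleph0_le_mk (ℕ → Bool))))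
            fun _ => a
          obtain ⟨j, _, hj, _⟩ := hA a δ δ (hδ δ le_rfl ())
          exact ⟨j, hj⟩
        have h2 := hcap j
        rw [famX, if_neg (by rw [hj]; simp)] at h2
        exact ⟨B, y, hB, fun i => by rw [h1]; exact h2⟩
    exact mem_fex_of_mem B (down_fex _) (mem_fex_of_mem y (down_fand
      (Pool.Agent.H105.AMA.down_InfN _)
      (down_fall fun _ => Pool.Agent.H105.AMA.down_CapturedN _ _ _ _)) ⟨hB, hcap⟩)
  · refine mem_fex_of_mem (fun _ => Set.univ) (down_fand (Pool.Agent.H105.AMA.down_InfN _)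
      (down_fall fun _ => down_fall fun _ => down_fimp _ _)) ⟨fun m => ?_, fun B y => ?_⟩
    · exact mem_fex_of_mem m (down_fand (down_fground _) (down_meets _))
        ⟨show m ≤ m from le_rfl, meets_of_mem (Set.mem_univ p)⟩
    · refine mem_fimp.2 fun q _ hq => ⟨q, le_rfl, ?_⟩
      obtain ⟨g, _, i, hi⟩ := not_captured hΓ hI hT (y := y) hq
      exact mem_fex_of_mem g (down_fex _) (mem_fex_of_mem i (down_fnot _) hi)

/-- The combinatorial sentence is forced by all conditions of some preorder. -/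
theorem exists_forcing : ∃ (K L P : Type) (_ : Preorder P), Infinite K ∧ Nonempty P ∧
    (∀ A : Set P, (∀ p ∈ A, ∀ q ∈ A, p ≠ q → ¬ ∃ r, r ≤ p ∧ r ≤ q) → A.Countable) ∧
      ∀ p : P, p ∈ PsiHolds P K L := by
  have hc : #(ℕ → Bool) = 𝔠 := by simp
  have hK : #(ℕ → Bool) ^ ℵ₀ = #(ℕ → Bool) := by
    rw [hc]
    exact Cardinal.continuum_power_aleph0
  obtain ⟨Γ, hΓ, hA, hT, hT'⟩ := exists_par (ℕ → Bool) hK
    {g | ∀ N, ∃ n, N ≤ n ∧ g n = true} (Cardinal.mk_set_le _)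
  have hI := Pool.Agent.W684.FM.bdd_succ (ℕ → Bool)
  refine ⟨ℕ → Bool, (Order.succ #(ℕ → Bool)).ord.ToType, PP Γ, inferInstance, inferInstance,
    ⟨(Cond.one : Cond _ _)⟩, pccc, fun p => ⟨allCapturedN hΓ hI hA p, ?_⟩⟩
  exact unionNotCapturedN hΓ hI hA hT hT' p

end Pool.Agent.H105.AMA
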