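import Pool.Agent.H105.AMA.Book
import Pool.Agent.W684.BMA.Defs

/-!
# The preorder of the conditions; names of the forcing language and raw names
-/

set_option autoImplicit false
set_option linter.unusedSectionVars false

namespace Pool.Agent.H105.AMA

open Classical Pool.Agent.Helper669.Forcing
open Pool.Agent.W684.BMA (Inf Next Captured InfN NextN CapturedN AllCaptured AllCapturedN fiff)

variable {K I : Type} [LinearOrder I] [WellFoundedLT I]

/-- the conditions, with the order given by the parameters -/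
def PP (_Γ : Par K I) : Type := Cond K I

variable {Γ : Par K I}

/-- an element of `PP Γ` as a condition -/
abbrev PP.toC (r : PP Γ) : Cond K I := r

noncomputable instance : Preorder (PP Γ) where
  le q p := le Γ Set.univ q p
  le_refl p := le_refl' Set.univ p
  le_trans _ _ _ h1 h2 := le_trans' isLowerSet_univ h1 h2

theorem PP.le_def {q p : PP Γ} : q ≤ p ↔ le Γ Set.univ q p := Iff.rfl

theorem pccc : Pool.Agent.W684.FM.PCCC (PP Γ) := by
  intro A hA
  by_contra hcon
  obtain ⟨p, hp, q, hq, hne, h⟩ := ccc (Γ := Γ) (T := Set.univ) A hcon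
  exact hA p hp q hq hne h

theorem op_of_down {U : Set (PP Γ)} (h : Down U) : Op Γ Set.univ U := h

theorem exists_raw_name (N : ℕ → Set (PP Γ)) : ∃ x : Nm K I,
    (∀ n p, Bit (le Γ Set.univ) p x n true → (p : PP Γ) ∈ meets (N n)) ∧
    (∀ n p, Bit (le Γ Set.univ) p x n false → ∀ q : PP Γ, q ≤ p → q ∉ meets (N n)) := by
  obtain ⟨x, -, hx⟩ := exists_raw (Γ := Γ) (S := Set.univ) isLowerSet_univ
    (fun n => (meets (N n) : Set (PP Γ))) (fun n => op_of_down (down_meets _))
  refine ⟨x, fun n p hp => ?_, fun n p hp q hq hqn => ?_⟩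
  · refine Pool.Agent.W684.FM.meets_of_dense (P := PP Γ) ?_
    intro q hq
    by_contra hcon
    have h1 : q ∈ (ofSet (Γ := Γ) (fun n => (meets (N n) : Set (PP Γ)))
        (fun n => op_of_down (down_meets _)) isLowerSet_univ).val n false :=
      mem_ofSet_false.2 fun r hr hrn => hcon ⟨r, hr, hrn⟩
    have h2 := hx q q (le_refl' _ q) n false true h1 (mem_ofRaw.2 (hp.mono isLowerSet_univ hq))
    exact Bool.false_ne_true h2
  · have h1 : q ∈ (ofSet (Γ := Γ) (fun n => (meets (N n) : Set (PP Γ)))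
        (fun n => op_of_down (down_meets _)) isLowerSet_univ).val n true := mem_ofSet_true.2 hqn
    have h2 := hx q q (le_refl' _ q) n true false h1 (mem_ofRaw.2 (hp.mono isLowerSet_univ hq))
    exact Bool.false_ne_true h2.symm

/-- a raw name represents a name -/
def Rep (Γ : Par K I) (x : Nm K I) (N : ℕ → Set (PP Γ)) : Prop :=
  (∀ n p, Bit (le Γ Set.univ) p x n true → (p : PP Γ) ∈ meets (N n)) ∧
    (∀ n p, Bit (le Γ Set.univ) p x n false → ∀ q : PP Γ, q ≤ p → q ∉ meets (N n))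

theorem Rep.true_iff {x : Nm K I} {N : ℕ → Set (PP Γ)} (h : Rep Γ x N) {n : ℕ} {b : Bool}
    {p : Cond K I} (hp : Bit (le Γ Set.univ) p x n b) : (p : PP Γ) ∈ meets (N n) ↔ b = true := by
  cases b with
  | true => exact ⟨fun _ => rfl, fun _ => h.1 n p hp⟩
  | false => exact ⟨fun h' => absurd h' (h.2 n p hp p (le_refl' _ p)), fun h' => absurd h' (by simp)⟩

theorem mem_meets_of_down {N : Set (PP Γ)} (hN : Down N) {p : PP Γ} (h : p ∈ meets N) :
    ∃ q, q ≤ p ∧ q ∈ N := by
  obtain ⟨q, hq, h'⟩ := exists_of_meets hN h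
  exact ⟨q, hq, h'⟩

theorem mem_fiff {φ ψ : Set (PP Γ)} {p : PP Γ} (h : ∀ q ≤ p, ∃ r ≤ q, (r ∈ φ ↔ r ∈ ψ))
    (hφ : Down φ) (hψ : Down ψ) : p ∈ fiff φ ψ := by
  refine ⟨mem_fimp.2 fun q hq hq' => ?_, mem_fimp.2 fun q hq hq' => ?_⟩
  · obtain ⟨r, hr, h1⟩ := h q hq
    exact ⟨r, hr, h1.1 (hφ q hq' r hr)⟩
  · obtain ⟨r, hr, h1⟩ := h q hq
    exact ⟨r, hr, h1.2 (hψ q hq' r hr)⟩

theorem down_fiff (φ ψ : Set (PP Γ)) : Down (fiff φ ψ) :=
  down_fand (down_fimp _ _) (down_fimp _ _)

theorem down_InfN (A : ℕ → Set (PP Γ)) : Down (InfN A) := down_fall fun _ => down_fex _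

theorem down_NextN (A : ℕ → Set (PP Γ)) (a a' : ℕ) : Down (NextN A a a') :=
  down_fand (down_fground _) (down_fand (down_meets _) (down_fand (down_meets _)
    (down_fall fun _ => down_fimp _ _)))

theorem down_CapturedN (A B y x : ℕ → Set (PP Γ)) : Down (CapturedN A B y x) := down_fex _

end Pool.Agent.H105.AMA
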