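import Pool.Agent.H105.AMA.Ccc

/-!
# Preservation: names of functions are infinitely often bounded by ground model functions
-/

set_option autoImplicit false
set_option linter.unusedSectionVars false

namespace Pool.Agent.H105.AMA

open Classical

variable {K I : Type} [LinearOrder I] [WellFoundedLT I] {Γ : Par K I} {T : Set I}

/-- the function `a` of the ground model is, on every infinite set `E` of the ground model,
infinitely often a bound -/
def Bds (φ : BN Γ T) (a : ℕ → ℕ) : Prop :=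
  ∀ E : ℕ → Prop, (∀ N, ∃ m, N ≤ m ∧ E m) → ∀ (p : Cond K I) (N : ℕ),
    ∃ q, le Γ T q p ∧ ∃ m, N ≤ m ∧ E m ∧ q ∈ φ.U m (a m)

/-- this is possible for all names -/
def Inb (Γ : Par K I) (T : Set I) : Prop := ∀ φ : BN Γ T, ∃ a : ℕ → ℕ, Bds φ a

theorem inb_empty : Inb Γ (∅ : Set I) := by
  intro φ
  have h1 : ∀ m, ∃ v, ∀ q, q ∈ φ.U m v := by
    intro m
    obtain ⟨q, _, v, hv⟩ := φ.dense m Cond.one
    exact ⟨v, fun q' => φ.op m v q hv q' fun j hj => absurd hj (Set.notMem_empty j)⟩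
  choose a ha using h1
  refine ⟨a, fun E hE p N => ?_⟩
  obtain ⟨m, hm, hEm⟩ := hE N
  exact ⟨p, le_refl' _ p, m, hm, hEm, ha m p⟩

theorem inb_of_pieces (hT : IsLowerSet T) (R : ℕ → Set I) (hR : ∀ n, IsLowerSet (R n))
    (hRT : ∀ n, R n ⊆ T) (Q : ℕ → Set (Cond K I))
    (hQ : ∀ n r t, r ∈ Q n → le Γ (R n) t r → mix (R n) t r ∈ Q n)
    (hcov : ∀ p, ∃ q, le Γ T q p ∧ ∃ n, q ∈ Q n) (φ : BN Γ T)
    (hd : ∀ n m t, ∃ t', le Γ (R n) t' t ∧ ∃ v, ∀ r ∈ Q n, le Γ (R n) r t' →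
      ∃ r', le Γ T r' r ∧ r' ∈ φ.U m v)
    (hI : ∀ n, Inb Γ (R n)) : ∃ a, Bds φ a := by
  let ψ : ∀ n, BN Γ (R n) := fun n =>
    { U := fun m v => {t | ∀ r ∈ Q n, le Γ (R n) r t → ∃ r', le Γ T r' r ∧ r' ∈ φ.U m v}
      op := fun m v p hp q hq r hr hrq => hp r hr (le_trans' (hR n) hrq hq)
      mono := fun m v v' hv p hp r hr hrp => by
        obtain ⟨r', h1, h2⟩ := hp r hr hrp
        exact ⟨r', h1, φ.mono m v v' hv h2⟩
      dense := fun m p => hd n m p }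
  choose a ha using fun n => hI n (ψ n)
  have h1 : ∀ m, ∃ v, ∀ n ≤ m, a n m ≤ v := by
    intro m
    refine ⟨∑ n ∈ Finset.range (m + 1), a n m, fun n hn => ?_⟩
    exact Finset.single_le_sum (f := fun n => a n m) (fun i _ => Nat.zero_le _)
      (Finset.mem_range.2 (by omega))
  choose b hb using h1
  refine ⟨b, fun E hE p N => ?_⟩
  obtain ⟨q0, hq0, n, hn⟩ := hcov p
  obtain ⟨q1, hq1, m, hm, hEm, hU⟩ := ha n E hE q0 (max N n)
  have hr : mix (R n) q1 q0 ∈ Q n := hQ n q0 q1 hn hq1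
  have hrq : le Γ (R n) (mix (R n) q1 q0) q1 := le_of_eq (hR n) fun i hi => mix_mem _ _ hi
  obtain ⟨r', h2, h3⟩ := hU _ hr hrq
  refine ⟨r', le_trans' hT h2 (le_trans' hT (mix_le (hR n) hq1) hq0), m,
    (le_max_left _ _).trans hm, hEm, ?_⟩
  exact φ.mono _ _ _ (hb m n ((le_max_right _ _).trans hm)) h3

theorem inb_CB (hT : IsLowerSet T) (hCB : CB T) (hne : T.Nonempty)
    (ih : ∀ δ ∈ T, Inb Γ (Set.Iio δ)) : Inb Γ T := by
  intro φ
  obtain ⟨δ₀, h₀⟩ := hne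
  obtain ⟨δ, hδ, _, φ', hφ⟩ := φ.reduce hCB hT h₀
  obtain ⟨a, ha⟩ := ih δ hδ φ'
  refine ⟨a, fun E hE p N => ?_⟩
  obtain ⟨q, hq, m, hm, hEm, hU⟩ := ha E hE p N
  refine ⟨mix (Set.Iio δ) q p, mix_le (lower_Iio δ) hq, m, hm, hEm, hφ _ _ ?_⟩
  exact φ'.op _ _ q hU _ (le_of_eq (lower_Iio δ) fun i hi => mix_mem _ _ hi)

theorem inb_limit (hT : IsLowerSet T) (f : ℕ → I) (hf : ∀ n, f n ∈ T)
    (hcof : ∀ i ∈ T, ∃ n, i < f n) (ih : ∀ δ ∈ T, Inb Γ (Set.Iio δ)) : Inb Γ T := by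
  intro φ
  refine inb_of_pieces hT (fun n => Set.Iio (f n)) (fun n => lower_Iio _)
    (fun n i hi => hT (le_of_lt hi) (hf n))
    (fun n => {r | ∀ i ∈ T, ¬ i < f n → r i = CV.top}) ?_ ?_ φ ?_ (fun n => ih _ (hf n))
  · intro n r t hr _ i hi hin
    rw [mix_notMem _ _ (show i ∉ Set.Iio (f n) from hin)]
    exact hr i hi hin
  · intro p
    refine ⟨p, le_refl' _ p, ?_⟩
    have h1 : ∀ s : Finset I, ∃ n, ∀ i ∈ s, i ∈ T → i < f n := by
      intro s
      induction s using Finset.induction_on with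
      | empty => exact ⟨0, fun i hi => absurd hi (Finset.notMem_empty i)⟩
      | insert a s _ ih =>
        obtain ⟨n, hn⟩ := ih
        by_cases ha : a ∈ T
        · obtain ⟨n', hn'⟩ := hcof a ha
          rcases le_total (f n) (f n') with h | h
          · refine ⟨n', fun i hi hiT => ?_⟩
            rcases Finset.mem_insert.1 hi with rfl | hi
            · exact hn'
            · exact (hn i hi hiT).trans_le h
          · refine ⟨n, fun i hi hiT => ?_⟩
            rcases Finset.mem_insert.1 hi with rfl | hi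
            · exact hn'.trans_le h
            · exact hn i hi hiT
        · refine ⟨n, fun i hi hiT => ?_⟩
          rcases Finset.mem_insert.1 hi with rfl | hi
          · exact absurd hiT ha
          · exact hn i hi hiT
    obtain ⟨n, hn⟩ := h1 p.2.toFinset
    refine ⟨n, fun i hi hin => ?_⟩
    by_contra hcon
    exact hin (hn i (p.2.mem_toFinset.2 hcon) hi)
  · intro n m t
    obtain ⟨q, hq, v, hv⟩ := φ.dense m t
    refine ⟨q, le_mono (fun i hi => hT (le_of_lt hi) (hf n)) hq, v, fun r hr hrq => ?_⟩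
    refine ⟨mix (Set.Iio (f n)) r q, ?_, ?_⟩
    · intro i hi
      by_cases h : i < f n
      · exact ext_congr i (fun l hl => (mix_mem (T := Set.Iio (f n)) r q (hl.trans_lt h)).symm)
          rfl (ext_refl i r)
      · exact ext_top (hr i hi h)
    · exact φ.op _ _ q hv _ (mix_le (lower_Iio _) hrq)

theorem lower_induct {Pr : Set I → Prop}
    (h : ∀ T, IsLowerSet T → (∀ δ ∈ T, Pr (Set.Iio δ)) → Pr T) (T : Set I) (hT : IsLowerSet T) :
    Pr T := by
  have h1 : ∀ δ : I, Pr (Set.Iio δ) := by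
    intro δ
    induction δ using WellFoundedLT.induction with
    | ind δ ih => exact h _ (lower_Iio δ) ih
  exact h T hT fun δ _ => h1 δ

theorem lower_cases (hne : T.Nonempty) :
    (∃ δ ∈ T, ∀ i ∈ T, i ≤ δ) ∨ (∃ f : ℕ → I, (∀ n, f n ∈ T) ∧ ∀ i ∈ T, ∃ n, i < f n) ∨
      CB T := by
  by_cases h1 : ∃ δ ∈ T, ∀ i ∈ T, i ≤ δ
  · exact Or.inl h1
  by_cases h2 : CB T
  · exact Or.inr (Or.inr h2)
  right; left
  push Not at h1
  rw [CB] at h2
  push Not at h2
  obtain ⟨C, hC, hCT, h3⟩ := h2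
  obtain ⟨δ, hδ⟩ := hne
  obtain ⟨c, hc, _⟩ := h3 δ hδ
  obtain ⟨f, hf⟩ := hC.exists_eq_range ⟨c, hc⟩
  refine ⟨f, fun n => hCT (hf ▸ ⟨n, rfl⟩), fun i hi => ?_⟩
  obtain ⟨i', hi', hlt⟩ := h1 i hi
  obtain ⟨c', hc', hle⟩ := h3 i' hi'
  rw [hf] at hc'
  obtain ⟨n, rfl⟩ := hc'
  exact ⟨n, hlt.trans_le hle⟩

/-- the parameter `e` lists all names -/
def Full (Γ : Par K I) : Prop :=
  ∀ δ, ∀ x : Nm K I, Supp (Set.Iio δ) x → ∃ k, Γ.e δ k = x

/-- the induction, provided that the successor steps can be handled -/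
theorem inb_all (hsucc : ∀ δ : I, Inb Γ (Set.Iio δ) → Inb Γ (Set.Iic δ)) (T : Set I)
    (hT : IsLowerSet T) : Inb Γ T := by
  refine lower_induct (Pr := fun T => Inb Γ T) ?_ T hT
  clear hT T
  intro T hT ih
  rcases T.eq_empty_or_nonempty with rfl | hne
  · exact inb_empty
  rcases lower_cases hne with ⟨δ, hδ, hmax⟩ | ⟨f, hf, hcof⟩ | h
  · obtain rfl : T = Set.Iic δ := by
      ext i
      exact ⟨fun hi => hmax i hi, fun hi => hT hi hδ⟩
    exact hsucc δ (ih δ hδ)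
  · exact inb_limit hT f hf hcof ih
  · exact inb_CB hT h hne ih

end Pool.Agent.H105.AMA
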