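import Pool.Agent.H105.AMA.FanT

/-!
# The preservation theorem
-/

set_option autoImplicit false
set_option linter.unusedSectionVars false

namespace Pool.Agent.H105.AMA

open Classical

variable {K I : Type} [LinearOrder I] [WellFoundedLT I] {Γ : Par K I} {δ : I}

theorem inb_succ_of (W : Set (Cond K I))
    (hW : ∀ r ∈ W, ∀ t, le Γ (Set.Iio δ) t r → mix (Set.Iio δ) t r ∈ W)
    (hcov : ∀ p, ∃ q, le Γ (Set.Iic δ) q p ∧ q ∈ W)
    (hsec : ∀ (φ : BN Γ (Set.Iic δ)) (m : ℕ) (s : List (List Bool)) (N : ℕ) (t : Cond K I),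
      ∃ t', le Γ (Set.Iio δ) t' t ∧ ∃ v, t' ∈ SecL δ φ W m s N [] v)
    (ih : Inb Γ (Set.Iio δ)) : Inb Γ (Set.Iic δ) := by
  intro φ
  refine inb_of_pieces (lower_Iic δ) (fun _ => Set.Iio δ) (fun _ => lower_Iio δ)
    (fun _ => Set.Iio_subset_Iic_self)
    (fun n => {r | r ∈ W ∧ Encodable.encode ((r δ).stem, (r δ).pr.length) = n}) ?_ ?_ φ ?_
    (fun _ => ih)
  · rintro n r t ⟨h1, h2⟩ ht
    refine ⟨hW r h1 t ht, ?_⟩
    rw [mix_notMem _ _ (by simp)]
    exact h2
  · intro p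
    obtain ⟨q, hq, hqW⟩ := hcov p
    exact ⟨q, hq, _, hqW, rfl⟩
  · intro n m t
    by_cases h : ∃ x : List (List Bool) × ℕ, Encodable.encode x = n
    · obtain ⟨⟨s, N⟩, rfl⟩ := h
      obtain ⟨t', ht', v, hv⟩ := hsec φ m s N t
      refine ⟨t', ht', v, ?_⟩
      rintro r ⟨h1, h2⟩ hrt
      have h3 := Encodable.encode_injective h2
      simp only [Prod.mk.injEq] at h3
      obtain ⟨rfl, rfl⟩ := h3
      refine hv (r δ).pr.get r h1 ?_ hrt (fun n hn => absurd hn (Nat.not_lt_zero n))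
      rw [List.ofFn_get]
    · exact ⟨t, le_refl' _ t, 0, fun r hr => absurd ⟨_, hr.2⟩ h⟩

/-- The iteration has the preservation property. -/
theorem inb (hΓ : Full Γ) (T : Set I) (hT : IsLowerSet T) : Inb Γ T := by
  refine inb_all (fun δ ih => ?_) T hT
  rcases h : Γ.typ δ with _ | g
  · exact inb_succ_of Set.univ (fun _ _ _ _ => Set.mem_univ _)
      (fun p => ⟨p, le_refl' _ p, Set.mem_univ _⟩)
      (fun φ m s N t => secured_none h (hΓ δ) φ m s N t) ih
  · refine inb_succ_of (Settled Γ g δ)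
      (fun r hr t ht => Settled.mix hr (lower_Iio δ) (by simp) ht) (fun p => ?_)
      (fun φ m s N t => secured_some h (hΓ δ) φ m s N t) ih
    obtain ⟨q, hq, hq', _⟩ := exists_settled h p 0
    exact ⟨q, fun i _ => hq i, hq'⟩

end Pool.Agent.H105.AMA
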