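import Pool.Agent.H105.AMA.Capt
import Pool.Agent.W684.FM.Ambient

/-!
# Supports of names
-/

set_option autoImplicit false
set_option linter.unusedSectionVars false

namespace Pool.Agent.H105.AMA

open Classical Cardinal Pool.Agent.Helper669.Forcing
open Pool.Agent.W684.BMA (Inf Next Captured InfN NextN CapturedN AllCaptured AllCapturedN fiff)

variable {K I : Type} [LinearOrder I] [WellFoundedLT I] {Γ : Par K I} {S : Set I}

/-- supports of families of raw names are bounded -/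
theorem exists_supp [Infinite K] (hI : Pool.Agent.W684.FM.Bdd K I) {J : Type} (hJ : #J ≤ #K)
    (x : J → Nm K I) : ∃ δ, ∀ β, δ ≤ β → ∀ k, Supp (Set.Iio β) (x k) := by
  obtain ⟨δ, hδ⟩ := hI (⋃ k, ⋃ n, ⋃ m, {i | ∃ u, x k n m = some u ∧ u i ≠ CV.top}) (by
    refine (Cardinal.mk_iUnion_le _).trans ?_
    calc #J * _ ≤ #K * ℵ₀ := by
          apply mul_le_mul' hJ
          apply ciSup_le'
          intro k
          rw [Cardinal.le_aleph0_iff_set_countable]
          apply Set.countable_iUnion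
          intro n
          apply Set.countable_iUnion
          intro m
          rcases h : x k n m with _ | u
          · simp
          · refine (u.2.countable).mono ?_
            rintro i ⟨v, hv, hvi⟩
            rw [Option.some_inj] at hv
            subst hv
            exact hvi
      _ ≤ #K := (Cardinal.mul_eq_left (Cardinal.aleph0_le_mk K) (Cardinal.aleph0_le_mk K)
          Cardinal.aleph0_ne_zero).le)
  refine ⟨δ, fun β hβ k n m u hu i hi => ?_⟩
  by_contra hcon
  apply hi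
  refine (hδ i ?_).trans_le hβ
  rw [Set.mem_iUnion]
  refine ⟨k, ?_⟩
  rw [Set.mem_iUnion]
  refine ⟨n, ?_⟩
  rw [Set.mem_iUnion]
  exact ⟨m, u, hu, hcon⟩

theorem Supp.mono {S T : Set I} (h : S ⊆ T) {x : Nm K I} (hx : Supp S x) : Supp T x :=
  fun n m u hu i hi => hx n m u hu i fun h' => hi (h h')

theorem Supp.of_CB {T : Set I} (hT : CB T) {x : Nm K I} (hx : Supp T x) :
    ∃ δ ∈ T, Supp (Set.Iio δ) x := by
  obtain ⟨δ, hδ, h⟩ := hT (⋃ n, ⋃ m, {i | ∃ u, x n m = some u ∧ u i ≠ CV.top}) (by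
    apply Set.countable_iUnion
    intro n
    apply Set.countable_iUnion
    intro m
    rcases h : x n m with _ | u
    · simp
    · refine (u.2.countable).mono ?_
      rintro i ⟨v, hv, hvi⟩
      rw [Option.some_inj] at hv
      subst hv
      exact hvi) (by
    intro i hi
    rw [Set.mem_iUnion] at hi
    obtain ⟨n, hi⟩ := hi
    rw [Set.mem_iUnion] at hi
    obtain ⟨m, u, hu, hui⟩ := hi
    by_contra hcon
    exact hui (hx n m u hu i hcon))
  refine ⟨δ, hδ, fun n m u hu i hi => ?_⟩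
  by_contra hcon
  apply hi
  apply h i
  rw [Set.mem_iUnion]
  refine ⟨n, ?_⟩
  rw [Set.mem_iUnion]
  exact ⟨m, u, hu, hcon⟩

/-- the name given by a raw name -/
def nameOf (Γ : Par K I) (a : Nm K I) (n : ℕ) : Set (PP Γ) :=
  {p : Cond K I | Bit (le Γ Set.univ) p a n true}

theorem mem_nameOf {a : Nm K I} {n : ℕ} {p : PP Γ} :
    p ∈ nameOf Γ a n ↔ Bit (le Γ Set.univ) p a n true := Iff.rfl

theorem down_nameOf (a : Nm K I) (n : ℕ) : Down (nameOf Γ a n) :=
  fun _ hp _ hq => mem_nameOf.2 (Bit.mono isLowerSet_univ (mem_nameOf.1 hp) hq)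

theorem rep_nameOf (a : Nm K I) : Rep Γ a (nameOf Γ a) := by
  refine ⟨fun n p hp => meets_of_mem (P := PP Γ) hp, fun n p hp q hq hqn => ?_⟩
  obtain ⟨r, hr, hr'⟩ := mem_meets_of_down (down_nameOf a n) hqn
  have h1 := Bit.unique (hp.mono isLowerSet_univ (le_trans' isLowerSet_univ hr hq))
    (mem_nameOf.1 hr')
  exact Bool.false_ne_true h1

theorem Rep.iff_meets {x : Nm K I} {M N : ℕ → Set (PP Γ)} (h : Rep Γ x M) (h' : Rep Γ x N)
    (n : ℕ) (p : PP Γ) : p ∈ meets (M n) ↔ p ∈ meets (N n) := by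
  have key : ∀ {M N : ℕ → Set (PP Γ)}, Rep Γ x M → Rep Γ x N → p ∈ meets (M n) →
      p ∈ meets (N n) := by
    intro M N h h' hp
    refine Pool.Agent.W684.FM.meets_of_dense (P := PP Γ) fun q hq => ?_
    obtain ⟨r, hr, b, hb⟩ := Bit.dense (Γ := Γ) (T := Set.univ) q x n
    refine ⟨r, hr, (h'.true_iff hb).2 ((h.true_iff hb).1 ?_)⟩
    exact down_meets _ _ hp _ (le_trans' isLowerSet_univ hr hq)
  exact ⟨key h h', key h' h⟩

/-- a raw name for the range of a function -/
theorem exists_range (hS : IsLowerSet S) (A : VN Γ S ℕ) : ∃ a : Nm K I, Supp S a ∧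
    (∀ t l n v, t ∈ A.val l n → Bit (le Γ S) t a n v → v = true) ∧
    ∀ t n, Bit (le Γ S) t a n true → ∃ t', le Γ S t' t ∧ ∃ l, t' ∈ A.val l n := by
  obtain ⟨a, ha, h⟩ := exists_raw (Γ := Γ) hS (fun n => {t | ∃ l, t ∈ A.val l n}) (by
    rintro n t ⟨l, hl⟩ t' ht'
    exact ⟨l, A.op _ _ t hl t' ht'⟩)
  refine ⟨a, ha, fun t l n v h1 h2 => ?_, fun t n h1 => ?_⟩
  · exact (h t t (le_refl' _ t) n true v (mem_ofSet_true.2 ⟨l, h1⟩) h2).symm
  · by_contra hcon
    have h2 := h t t (le_refl' _ t) n false true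
      (mem_ofSet_false.2 fun t' ht' ⟨l, hl⟩ => hcon ⟨t', ht', l, hl⟩) h1
    exact Bool.false_ne_true h2

theorem InfN_congr {M N : ℕ → Set (PP Γ)} (h : ∀ n, meets (M n) = meets (N n)) :
    InfN M = InfN N := by
  unfold InfN
  simp only [h]

theorem CapturedN_congr {A A' B B' y y' x : ℕ → Set (PP Γ)}
    (hA : ∀ n, meets (A n) = meets (A' n)) (hB : ∀ n, meets (B n) = meets (B' n))
    (hy : ∀ n, meets (y n) = meets (y' n)) : CapturedN A B y x = CapturedN A' B' y' x := by
  unfold CapturedN NextN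
  simp only [hA, hB, hy]

theorem Rep.meets_eq {x : Nm K I} {M : ℕ → Set (PP Γ)} (h : Rep Γ x M) (n : ℕ) :
    meets (M n) = meets (nameOf Γ x n) :=
  Set.ext fun p => h.iff_meets (rep_nameOf x) n p

end Pool.Agent.H105.AMA
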