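import Pool.Agent.H105.AMA.Intro

/-!
# The families of the thin generic reals of one kind are captured
-/

set_option autoImplicit false
set_option linter.unusedSectionVars false

namespace Pool.Agent.H105.AMA

open Classical Cardinal Pool.Agent.Helper669.Forcing
open Pool.Agent.W684.BMA (Inf Next Captured InfN NextN CapturedN AllCaptured AllCapturedN fiff)

variable {K I : Type} [LinearOrder I] [WellFoundedLT I] {Γ : Par K I} {S : Set I} {j : I}

/-- a raw name for a name given by open sets -/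
theorem exists_rep (hS : IsLowerSet S) (U : ℕ → Set (PP Γ)) (hU : ∀ n, Op Γ S (U n)) :
    ∃ x : Nm K I, Supp S x ∧ Rep Γ x U := by
  have hSU := Set.subset_univ S
  have hUl := isLowerSet_univ (α := I)
  obtain ⟨x, hx, h⟩ := exists_raw (Γ := Γ) hS U hU
  refine ⟨x, hx, fun n p hp => ?_, fun n p hp q hq hqn => ?_⟩
  · refine Pool.Agent.W684.FM.meets_of_dense (P := PP Γ) fun q hq => ?_
    have hqx : Bit (le Γ S) q x n true := (Bit.iff_of_supp hS hSU hx).1 (hp.mono hUl hq)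
    by_contra hcon
    have h1 : q ∈ (ofSet U hU hS).val n false := mem_ofSet_false.2 fun t ht htU => by
      apply hcon
      refine ⟨mix S t q, mix_le hS ht, meets_of_mem (P := PP Γ) ?_⟩
      exact hU n t htU _ (le_of_eq hS fun i hi => mix_mem _ _ hi)
    exact Bool.false_ne_true (h q q (le_refl' _ q) n false true h1 hqx)
  · obtain ⟨r, hr, hr'⟩ := mem_meets_of_down
      (fun a ha b hb => hU n a ha b (le_mono hSU hb)) hqn
    have h1 : Bit (le Γ S) r x n false :=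
      (Bit.iff_of_supp hS hSU hx).1 (hp.mono hUl (le_trans' hUl hr hq))
    exact Bool.false_ne_true (h r r (le_refl' _ r) n true false (mem_ofSet_true.2 hr') h1).symm

theorem op_genY (i : I) (n : ℕ) : Op Γ (Set.Iic i) (genY Γ i n) := by
  rintro p ⟨h1, h2⟩ q hq
  have h3 : (p i).stem <+: (q i).stem := ext_stem (hq i (by simp))
  exact ⟨h1.trans_le (len_prefix h3), (bits_prefix h3 h1).trans h2⟩

/-- the generic reals of the coordinates of the kind `g`, and the real zero at the other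
coordinates -/
noncomputable def famX (Γ : Par K I) (g : ℕ → Bool) (i : I) : ℕ → Set (PP Γ) :=
  if Γ.typ i = some g then genY Γ i else fun _ => ∅

/-- the raw name of zero -/
def zeroN : Nm K I := fun _ _ => none

theorem supp_zeroN : Supp S (zeroN : Nm K I) := fun _ _ _ h => by simp [zeroN] at h

theorem bit_zeroN (t : Cond K I) (n : ℕ) : Bit (le Γ S) t zeroN n false :=
  bit_false.2 fun _ _ m u h => by simp [zeroN] at h

theorem not_meets_empty (p : PP Γ) : p ∉ meets (∅ : Set (PP Γ)) := by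
  intro h
  obtain ⟨_, _, _, h1, _⟩ := h p le_rfl
  exact h1

theorem rep_zeroN : Rep Γ zeroN (fun _ => (∅ : Set (PP Γ))) := by
  refine ⟨fun n p hp => ?_, fun n p _ q _ => not_meets_empty q⟩
  exact absurd (hp.unique (bit_zeroN p n)) (by simp)

/-- the kinds of coordinates below `j` -/
theorem exists_rep_famX (g : ℕ → Bool) {i : I} (hi : i < j) :
    ∃ x : Nm K I, Supp (Set.Iio j) x ∧ Rep Γ x (famX Γ g i) := by
  by_cases h : Γ.typ i = some g
  · obtain ⟨x, hx, hx'⟩ := exists_rep (Γ := Γ) (isLowerSet_Iic i) (genY Γ i) (op_genY i)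
    refine ⟨x, hx.mono fun l hl => (show l ≤ i from hl).trans_lt hi, ?_⟩
    rw [famX, if_pos h]
    exact hx'
  · refine ⟨zeroN, supp_zeroN, ?_⟩
    rw [famX, if_neg h]
    exact rep_zeroN

/-- between `b` and `b'` there is a block of the stem at `j` which contains an interval of the
partition on which the generic real is zero -/
def OKs (Γ : Par K I) (j : I) (b b' : ℕ) : Set (Cond K I) :=
  {t | ∃ i, i < (t j).stem.length ∧ b ≤ off (t j).stem i ∧ off (t j).stem (i + 1) ≤ b' ∧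
    ∃ a a', off (t j).stem i ≤ a ∧ a < a' ∧ a' ≤ off (t j).stem (i + 1) ∧
      Bit (le Γ (Set.Iio j)) t (Γ.A j) a true ∧ Bit (le Γ (Set.Iio j)) t (Γ.A j) a' true ∧
      (∀ c, a < c → c < a' → Bit (le Γ (Set.Iio j)) t (Γ.A j) c false) ∧
      ∀ n, a ≤ n → n < a' → bits (t j).stem n = false}

theorem OKs.op (b b' : ℕ) : Op Γ (Set.Iic j) (OKs Γ j b b') := by
  rintro p ⟨i, h1, h2, h3, a, a', h4, h5, h6, h7, h8, h9, h10⟩ q hq
  have hp : (p j).stem <+: (q j).stem := ext_stem (hq j (by simp))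
  have hl : le Γ (Set.Iio j) q p := le_mono Set.Iio_subset_Iic_self hq
  have e1 : off (q j).stem i = off (p j).stem i := off_prefix hp h1.le
  have e2 : off (q j).stem (i + 1) = off (p j).stem (i + 1) := off_prefix hp h1
  refine ⟨i, h1.trans_le hp.length_le, by rw [e1]; exact h2, by rw [e2]; exact h3, a, a',
    by rw [e1]; exact h4, h5, by rw [e2]; exact h6, h7.mono (lower_Iio j) hl,
    h8.mono (lower_Iio j) hl, fun c hc hc' => (h9 c hc hc').mono (lower_Iio j) hl,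
    fun n hn hn' => ?_⟩
  rw [bits_prefix hp (hn'.trans_le (h6.trans (off_le_len _ _)))]
  exact h10 n hn hn'

theorem OKs.mono {b b' b'' : ℕ} (h : b' ≤ b'') : OKs Γ j b b' ⊆ OKs Γ j b b'' := by
  rintro p ⟨i, h1, h2, h3, h4⟩
  exact ⟨i, h1, h2, h3.trans h, h4⟩

theorem le_add_promise (r : Cond K I) (k : K) :
    le Γ Set.univ (upd r j ⟨(r j).stem, k :: (r j).pr⟩) r := by
  intro i _
  by_cases h : i = j
  · subst h
    exact ext_same_stem (by rw [upd_same]) (by rw [upd_same]; exact List.subset_cons_self _ _)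
  · have h1 : upd r j ⟨(r j).stem, k :: (r j).pr⟩ i = r i := upd_of_ne _ _ h
    exact ext_same_stem (by rw [h1]) (by rw [h1]; exact fun _ h => h)

theorem exists_OK (hτ : Γ.typ j = none) {N : ℕ → Set (PP Γ)} (hrep : Rep Γ (Γ.A j) N)
    (hs : Supp (Set.Iio j) (Γ.A j)) (he : ∃ k, Γ.e j k = zeroN) {q : PP Γ} (hq : q ∈ InfN N)
    (t : PP Γ) (ht : t ≤ q) (b : ℕ) : ∃ t' : PP Γ, t' ≤ t ∧ ∃ b', t' ∈ OKs Γ j b b' := by
  have hlow := lower_Iio j
  obtain ⟨k, hk⟩ := he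
  obtain ⟨t1, ht1, hb⟩ := exists_long hτ hrep hs hq b t ht
  obtain ⟨t10, ht10⟩ : ∃ t10 : Cond K I, t10 = t1 := ⟨t1, rfl⟩
  subst ht10
  obtain ⟨t2, ht2⟩ : ∃ t2 : Cond K I, t2 = upd t10 j ⟨(t10 j).stem, k :: (t10 j).pr⟩ := ⟨_, rfl⟩
  have ht21 : le Γ Set.univ t2 t10 := by
    rw [ht2]
    exact le_add_promise _ k
  have ht2q : le Γ Set.univ t2 q := le_trans' isLowerSet_univ ht21
    (le_trans' isLowerSet_univ ht1 ht)
  obtain ⟨t3, ht3, β, hβ, ht3j⟩ := exists_block hτ hrep hs hq t2 ht2q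
  obtain ⟨t30, ht30⟩ : ∃ t30 : Cond K I, t30 = t3 := ⟨t3, rfl⟩
  subst ht30
  obtain ⟨u, hu, hd⟩ := (ofRaw (Γ := Γ) (Γ.A j) hlow).decide hlow hlow (Set.Subset.refl _)
    (len (t30 j).stem + 1) t30
  choose! α hα using hd
  let t4 : Cond K I := mix (Set.Iio j) u t30
  have ht4 : le Γ Set.univ t4 t30 := mix_le hlow hu
  have ht4u : le Γ (Set.Iio j) t4 u := le_of_eq hlow fun i hi => mix_mem _ _ hi
  have ht4j : t4 j = t30 j := mix_notMem _ _ (by simp)
  have hα4 : ∀ n ≤ len (t30 j).stem, Bit (le Γ (Set.Iio j)) t4 (Γ.A j) n (α n) := fun n hn =>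
    Bit.mono hlow (hα n (by omega)) ht4u
  have ht42 : le Γ Set.univ t4 t2 := le_trans' isLowerSet_univ ht4 ht3
  have h2j : t2 j = ⟨(t10 j).stem, k :: (t10 j).pr⟩ := by
    rw [ht2, upd_same]
  have hst : (t30 j).stem = (t2 j).stem ++ [β] := by
    have := congrArg CV.stem ht3j
    exact this
  have hnew : newOK α (fun _ => false) (t2 j).stem.length (t30 j).stem := by
    have h1 := ht42 j (Set.mem_univ j)
    rw [ext_iff, ht4j] at h1
    refine (h1.2.2 k (by rw [h2j]; simp)).2 hτ t4 (le_refl' _ t4) α _ hα4 fun n _ => ?_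
    rw [hk]
    exact bit_zeroN _ _
  have hlen : (t2 j).stem.length < (t30 j).stem.length := by
    rw [hst]
    simp
  obtain ⟨a, a', h1, h2, h3, h4, h5, h6, h7⟩ := hnew _ le_rfl hlen
  refine ⟨t4, le_trans' isLowerSet_univ ht4 (le_trans' isLowerSet_univ ht3
    (le_trans' isLowerSet_univ ht21 ht1)), off (t30 j).stem ((t2 j).stem.length + 1),
    (t2 j).stem.length, ?_, ?_, ?_, a, a', ?_, h2, ?_, ?_, ?_, ?_, ?_⟩
  · rw [ht4j]
    exact hlen
  · rw [ht4j, hst, off_prefix (List.prefix_append _ _) le_rfl, off_length, h2j]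
    exact hb
  · rw [ht4j]
  · rw [ht4j]
    exact h1
  · rw [ht4j]
    exact h3
  · rw [← h4]
    exact hα4 a ((h2.le.trans h3).trans (off_le_len _ _))
  · rw [← h5]
    exact hα4 a' (h3.trans (off_le_len _ _))
  · intro c hc hc'
    rw [← h6 c hc hc']
    exact hα4 c ((hc'.le.trans h3).trans (off_le_len _ _))
  · intro n hn hn'
    rw [ht4j]
    exact (h7 n hn hn').symm

/-- the name of the boundaries -/
theorem exists_E (g : ℕ → Bool) (hg : ∀ N, ∃ n, N ≤ n ∧ g n = true) (j : I) :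
    ∃ E : VN Γ (Set.Iic j) ℕ, Incr E ∧ (∀ l t b, t ∈ E.val l b → g b = true) ∧
      ∀ l t b b', t ∈ E.val l b → t ∈ E.val (l + 1) b' →
        t ∈ OKs Γ j b b' ∨ ∀ t', le Γ (Set.Iic j) t' t → ∀ b'', t' ∉ OKs Γ j b b'' := by
  have hlow := isLowerSet_Iic j
  obtain ⟨a₀, -, ha₀⟩ := hg 0
  obtain ⟨E, hE0, hE⟩ := exists_rec (Γ := Γ) hlow a₀
    (fun _ b b' => {t | b < b' ∧ g b' = true ∧ (t ∈ OKs Γ j b b' ∨
      ∀ t', le Γ (Set.Iic j) t' t → ∀ b'', t' ∉ OKs Γ j b b'')})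
    (by
      rintro _ b b' t ⟨h1, h2, h3⟩ t' ht'
      refine ⟨h1, h2, ?_⟩
      rcases h3 with h3 | h3
      · exact Or.inl (OKs.op b b' t h3 t' ht')
      · exact Or.inr fun t'' ht'' => h3 t'' (le_trans' hlow ht'' ht'))
    (by
      intro _ b p
      by_cases h : ∃ q, le Γ (Set.Iic j) q p ∧ ∃ b'', q ∈ OKs Γ j b b''
      · obtain ⟨q, hq, b'', hb⟩ := h
        obtain ⟨n, hn, hgn⟩ := hg (max (b + 1) b'')
        exact ⟨q, hq, n, (Nat.lt_succ_self b).trans_le ((le_max_left _ _).trans hn), hgn,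
          Or.inl (OKs.mono ((le_max_right _ _).trans hn) hb)⟩
      · obtain ⟨n, hn, hgn⟩ := hg (b + 1)
        exact ⟨p, le_refl' _ p, n, hn, hgn, Or.inr fun t' ht' b'' hb => h ⟨t', ht', b'', hb⟩⟩)
  refine ⟨E, fun l p a a' h h' => (hE l p a a' h h').1, fun l t b hb => ?_,
    fun l t b b' h h' => (hE l t b b' h h').2.2⟩
  cases l with
  | zero =>
    rw [E.uniq 0 t b a₀ hb (hE0 t)]
    exact ha₀
  | succ l =>
    obtain ⟨q, hq, a, ha⟩ := E.dense l t
    exact (hE l q a b ha (E.op _ _ t hb q hq)).2.1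

theorem Incr.index_lt {A : VN Γ S ℕ} (h : Incr A) (hS : IsLowerSet S) {l l' : ℕ}
    {p : Cond K I} {a a' : ℕ} (h1 : p ∈ A.val l a) (h2 : p ∈ A.val l' a') (ha : a < a') :
    l < l' := by
  by_contra hcon
  exact absurd (h.le_of_le hS (not_lt.1 hcon) h2 h1) (not_le.2 ha)

section

variable {g : ℕ → Bool} {E : VN Γ (Set.Iic j) ℕ}

/-- the even boundaries -/
def evenB (E : VN Γ (Set.Iic j) ℕ) (n : ℕ) : Set (PP Γ) := {p | ∃ l, p ∈ E.val (2 * l) n}

theorem down_evenB (E : VN Γ (Set.Iic j) ℕ) (n : ℕ) : Down (evenB E n) := by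
  rintro p ⟨l, hl⟩ q hq
  exact ⟨l, E.op _ _ p hl q (le_mono (Set.subset_univ _) hq)⟩

theorem infN_evenB (hE : Incr E) (q : PP Γ) : q ∈ InfN (evenB E) := by
  intro m
  refine mem_fex.2 fun r _ => ?_
  obtain ⟨r', hr', n, hn⟩ := E.dense_up (T := Set.univ) (isLowerSet_Iic j) (2 * m) r
  have h1 := hE.ge (isLowerSet_Iic j) hn
  exact ⟨r', hr', n, show m ≤ n by omega, meets_of_mem (P := PP Γ) ⟨m, hn⟩⟩

/-- analysis of a block of the partition -/
theorem even_block (hEok : ∀ l t b b', t ∈ E.val l b → t ∈ E.val (l + 1) b' →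
      t ∈ OKs Γ j b b' ∨ ∀ t', le Γ (Set.Iic j) t' t → ∀ b'', t' ∉ OKs Γ j b b'')
    {q : PP Γ} (hok : ∀ t : PP Γ, t ≤ q → ∀ b, ∃ t' : PP Γ, t' ≤ t ∧ ∃ b', t' ∈ OKs Γ j b b')
    {s : PP Γ} (hs : s ≤ q) {b : ℕ} (hb : s ∈ meets (evenB E b)) :
    ∃ s' : PP Γ, s' ≤ s ∧ ∃ l b1 b2, s' ∈ E.val (2 * l) b ∧ s' ∈ E.val (2 * l + 1) b1 ∧
      s' ∈ E.val (2 * l + 2) b2 ∧ s' ∈ OKs Γ j b b1 ∧ s' ∈ OKs Γ j b1 b2 := by
  have hU := isLowerSet_univ (α := I)
  obtain ⟨s1, hs1, l, hl⟩ := mem_meets_of_down (down_evenB E b) hb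
  obtain ⟨s2, hs2, hd⟩ := E.decide (isLowerSet_Iic j) hU (Set.subset_univ _) (2 * l + 3) s1
  choose! v hv using hd
  have hs2q : le Γ Set.univ s2 q := le_trans' hU hs2 (le_trans' hU hs1 hs)
  have h0 : s2 ∈ E.val (2 * l) b := E.op _ _ s1 hl s2 (le_mono (Set.subset_univ _) hs2)
  have key : ∀ l b b', s2 ∈ E.val l b → s2 ∈ E.val (l + 1) b' → s2 ∈ OKs Γ j b b' := by
    intro l b b' h1 h2
    rcases hEok l s2 b b' h1 h2 with h | h
    · exact h
    · obtain ⟨t', ht', b'', hb''⟩ := hok s2 hs2q b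
      exact absurd hb'' (h t' (le_mono (Set.subset_univ _) ht') b'')
  exact ⟨s2, le_trans' hU hs2 hs1, l, _, _, h0, hv (2 * l + 1) (by omega),
    hv (2 * l + 2) (by omega), key _ _ _ h0 (hv (2 * l + 1) (by omega)),
    key _ _ _ (hv (2 * l + 1) (by omega)) (hv (2 * l + 2) (by omega))⟩

/-- the next even boundary -/
theorem even_next (hE : Incr E) {s : PP Γ} {l b b2 : ℕ} (hb : s ∈ E.val (2 * l) b)
    (hb2 : s ∈ E.val (2 * l + 2) b2) {u : PP Γ} (hu : u ≤ s) {b' : ℕ}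
    (hb' : u ∈ meets (evenB E b')) : b' ≤ b ∨ b2 ≤ b' := by
  obtain ⟨w, hw, l', hl'⟩ := mem_meets_of_down (down_evenB E b') hb'
  have hws : le Γ (Set.Iic j) w s := le_mono (Set.subset_univ _)
    (le_trans' isLowerSet_univ hw hu)
  rcases Nat.lt_or_ge l l' with h | h
  · right
    exact hE.le_of_le (isLowerSet_Iic j) (show 2 * l + 2 ≤ 2 * l' by omega)
      (E.op _ _ s hb2 w hws) hl'
  · left
    exact hE.le_of_le (isLowerSet_Iic j) (show 2 * l' ≤ 2 * l by omega) hl'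
      (E.op _ _ s hb w hws)

/-- a captured real is captured by the coarser partition -/
theorem captured_coarse (hE : Incr E) (hEok : ∀ l t b b', t ∈ E.val l b →
      t ∈ E.val (l + 1) b' →
      t ∈ OKs Γ j b b' ∨ ∀ t', le Γ (Set.Iic j) t' t → ∀ b'', t' ∉ OKs Γ j b b'')
    {q : PP Γ} (hok : ∀ t : PP Γ, t ≤ q → ∀ b, ∃ t' : PP Γ, t' ≤ t ∧ ∃ b', t' ∈ OKs Γ j b b')
    {N x : ℕ → Set (PP Γ)} (hx : q ∈ CapturedN N (genB Γ j) (genY Γ j) x) :
    q ∈ CapturedN N (evenB E) (genY Γ j) x := by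
  have hU := isLowerSet_univ (α := I)
  refine captured_intro fun r hr => ?_
  obtain ⟨r', hr', n0, hn0⟩ := captured_elim hx hr
  refine ⟨r', hr', n0, fun s hs b hb hsb => ?_⟩
  obtain ⟨s1, hs1, l, b1, b2, h1, h2, h3, h4, -⟩ := even_block hEok hok
    (hs.trans (hr'.trans hr)) hsb
  obtain ⟨i, hi, hi1, hi2, a0, a0', ha1, ha2, ha3, -⟩ := h4
  have hgen : s1 ∈ genB Γ j (off (PP.toC s1 j).stem i) := ⟨i, hi.le, rfl⟩
  have hgen' : s1 ∈ genB Γ j (off (PP.toC s1 j).stem (i + 1)) := ⟨i + 1, hi, rfl⟩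
  obtain ⟨s2, hs2, a, a', h5, h6, h7, h8⟩ := hn0 s1 (hs1.trans hs) _ (hb.trans hi1)
    (meets_of_mem hgen)
  have hb1b2 : b1 < b2 := hE _ s1 _ _ h2 h3
  have ha'b2 : a' ≤ b2 := by
    rcases h7 _ s2 le_rfl (down_meets _ _ (meets_of_mem hgen') s2 hs2) with h | h
    · exact absurd h (not_le.2 (ha1.trans_lt (ha2.trans_le ha3)))
    · exact h.trans (hi2.trans hb1b2.le)
  refine ⟨s2, hs2.trans hs1, a, a', hi1.trans h5, h6, fun b' u hu hub => ?_, h8⟩
  rcases even_next hE h1 h3 (hu.trans hs2) hub with h | h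
  · exact Or.inl h
  · exact Or.inr (ha'b2.trans h)

end

end Pool.Agent.H105.AMA
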