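import Pool.Agent.H105.AMA.XCap

/-!
# The families of the thin generic reals of one kind are captured (continued)
-/

set_option autoImplicit false
set_option linter.unusedSectionVars false

namespace Pool.Agent.H105.AMA

open Classical Cardinal Pool.Agent.Helper669.Forcing
open Pool.Agent.W684.BMA (Inf Next Captured InfN NextN CapturedN AllCaptured AllCapturedN fiff)

variable {K I : Type} [LinearOrder I] [WellFoundedLT I] {Γ : Par K I} {S : Set I} {i j : I}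

theorem not_meets_genY {s : Cond K I} {n : ℕ} (hn : n < len (s i).stem)
    (hb : bits (s i).stem n = false) {u : PP Γ} (hu : le Γ Set.univ u s) :
    u ∉ meets (genY Γ i n) := by
  intro h
  obtain ⟨w, hw, -, hw2⟩ := mem_meets_of_down (down_genY i n) h
  have hp : (s i).stem <+: (PP.toC w i).stem :=
    ext_stem (le_trans' isLowerSet_univ hw hu i (Set.mem_univ i))
  rw [bits_prefix hp hn, hb] at hw2
  exact Bool.false_ne_true hw2

theorem nextN_of_bits {N : ℕ → Set (PP Γ)} (hrep : Rep Γ (Γ.A j) N)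
    (hs : Supp (Set.Iio j) (Γ.A j)) {s : Cond K I} {a a' : ℕ} (haa : a < a')
    (h1 : Bit (le Γ (Set.Iio j)) s (Γ.A j) a true)
    (h2 : Bit (le Γ (Set.Iio j)) s (Γ.A j) a' true)
    (h3 : ∀ c, a < c → c < a' → Bit (le Γ (Set.Iio j)) s (Γ.A j) c false) :
    (s : PP Γ) ∈ NextN N a a' := by
  have hup : ∀ {n : ℕ} {b : Bool}, Bit (le Γ (Set.Iio j)) s (Γ.A j) n b →
      Bit (le Γ Set.univ) s (Γ.A j) n b := fun hb =>
    (Bit.iff_of_supp (lower_Iio j) (Set.subset_univ _) hs).2 hb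
  refine ⟨haa, hrep.1 a s (hup h1), hrep.1 a' s (hup h2), fun c => ?_⟩
  refine mem_fimp.2 fun u hu huc => ⟨u, le_rfl, ?_⟩
  show c ≤ a ∨ a' ≤ c
  by_contra hcon
  push Not at hcon
  exact hrep.2 c u ((hup (h3 c hcon.1 hcon.2)).mono isLowerSet_univ hu) u le_rfl huc

/-- the later thin generic reals are captured -/
theorem captured_late {g : ℕ → Bool} (hτ : Γ.typ i = some g) (hji : j < i)
    {N : ℕ → Set (PP Γ)} (hrep : Rep Γ (Γ.A j) N) (hs : Supp (Set.Iio j) (Γ.A j))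
    {E : VN Γ (Set.Iic j) ℕ} (hE : Incr E) (hEg : ∀ l t b, t ∈ E.val l b → g b = true)
    (hEok : ∀ l t b b', t ∈ E.val l b → t ∈ E.val (l + 1) b' →
      t ∈ OKs Γ j b b' ∨ ∀ t', le Γ (Set.Iic j) t' t → ∀ b'', t' ∉ OKs Γ j b b'')
    {q : PP Γ} (hok : ∀ t : PP Γ, t ≤ q → ∀ b, ∃ t' : PP Γ, t' ≤ t ∧ ∃ b', t' ∈ OKs Γ j b b')
    {xE : Nm K I} (hxE : Supp (Set.Iic j) xE)
    (hx1 : ∀ t l n v, t ∈ E.val l n → Bit (le Γ (Set.Iic j)) t xE n v → v = true)
    (hx2 : ∀ t n, Bit (le Γ (Set.Iic j)) t xE n true →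
      ∃ t', le Γ (Set.Iic j) t' t ∧ ∃ l, t' ∈ E.val l n)
    {k : K} (hk : Γ.e i k = xE) :
    q ∈ CapturedN N (evenB E) (genY Γ j) (genY Γ i) := by
  have hU := isLowerSet_univ (α := I)
  have hlj := isLowerSet_Iic j
  have hli := lower_Iio i
  have hsub : Set.Iic j ⊆ Set.Iio i := fun l hl => (show l ≤ j from hl).trans_lt hji
  have hdn : ∀ {t : Cond K I} {n : ℕ} {b : Bool}, Bit (le Γ (Set.Iio i)) t xE n b →
      Bit (le Γ (Set.Iic j)) t xE n b := fun hb => (Bit.iff_of_supp hlj hsub hxE).1 hb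
  have hNd : Nd (le Γ (Set.Iio i)) g (Γ.e i k) := by
    intro t n0
    rw [hk]
    obtain ⟨t', ht', b, hb⟩ := E.dense_up (T := Set.Iio i) hlj n0 t
    obtain ⟨t'', ht'', v, hv⟩ := Bit.dense (Γ := Γ) (T := Set.Iio i) t' xE b
    have h1 : v = true := hx1 t'' n0 b v (E.op _ _ t' hb t'' (le_mono hsub ht'')) (hdn hv)
    subst h1
    exact ⟨t'', le_trans' hli ht'' ht', b, hE.ge hlj hb, hEg _ _ _ hb, hv⟩
  refine captured_intro fun r hr => ?_
  obtain ⟨r0, hr0⟩ : ∃ r0 : Cond K I, r0 = r := ⟨r, rfl⟩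
  subst hr0
  let r1 : Cond K I := upd r0 i ⟨(r0 i).stem, k :: (r0 i).pr⟩
  have hr1 : le Γ Set.univ r1 r0 := le_add_promise r0 k
  have hr1i : r1 i = ⟨(r0 i).stem, k :: (r0 i).pr⟩ := upd_same _ _ _
  refine ⟨r1, hr1, len (r0 i).stem, fun s hsr b hb hsb => ?_⟩
  obtain ⟨s1, hs1, l, b1, b2, h1, h2, h3, h4, h5⟩ := even_block hEok hok
    (le_trans' hU hsr (le_trans' hU hr1 hr)) hsb
  obtain ⟨s2, hs2, -, hb2⟩ := exists_settled hτ s1 b2
  obtain ⟨u, hu, hd⟩ := (ofRaw (Γ := Γ) xE hli).decide hli hli (Set.Subset.refl _)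
    (len (s2 i).stem + 1) s2
  choose! ξ hξ using hd
  let s3 : Cond K I := mix (Set.Iio i) u s2
  have hs32 : le Γ Set.univ s3 s2 := mix_le hli hu
  have hs3u : le Γ (Set.Iio i) s3 u := le_of_eq hli fun i hi => mix_mem _ _ hi
  have hs3i : s3 i = s2 i := mix_notMem _ _ (by simp)
  have hξ3 : ∀ n ≤ len (s2 i).stem, Bit (le Γ (Set.Iio i)) s3 xE n (ξ n) := fun n hn =>
    Bit.mono hli (hξ n (by omega)) hs3u
  have hs31 : le Γ Set.univ s3 s1 := le_trans' hU hs32 fun l _ => hs2 l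
  have hs3r : le Γ Set.univ s3 r1 := le_trans' hU hs31 (le_trans' hU hs1 hsr)
  have hthin : thinOK g ξ (len (r0 i).stem) (s2 i).stem := by
    have h := hs3r i (Set.mem_univ i)
    rw [ext_iff, hs3i, hr1i] at h
    refine (h.2.2 k (by simp)).1 g hτ hNd s3 (le_refl' _ s3) ξ fun n hn => ?_
    rw [hk]
    exact hξ3 n hn
  have hj3 : ∀ {l n : ℕ}, s1 ∈ E.val l n → s3 ∈ E.val l n := fun h =>
    E.op _ _ s1 h s3 (le_mono (Set.subset_univ _) hs31)
  have hbb1 : b < b1 := hE _ s1 _ _ h1 h2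
  have hb1b2 : b1 < b2 := hE _ s1 _ _ h2 h3
  have hξb1 : ξ b1 = true := hx1 s3 _ b1 _ (hj3 h2) (hdn (hξ3 b1 (by omega)))
  have honly : ∀ b', b < b' → b' < b2 → ξ b' = true → b' = b1 := by
    intro b' hb' hb'2 hξ'
    have h6 := hdn (hξ3 b' (by omega))
    rw [hξ'] at h6
    obtain ⟨w, hw, l', hl'⟩ := hx2 s3 b' h6
    have hw' : ∀ {l n : ℕ}, s3 ∈ E.val l n → w ∈ E.val l n := fun h => E.op _ _ s3 h w hw
    have h7 := hE.index_lt hlj (hw' (hj3 h1)) hl' hb'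
    have h8 := hE.index_lt hlj hl' (hw' (hj3 h3)) hb'2
    obtain rfl : l' = 2 * l + 1 := by omega
    exact E.uniq _ w _ _ hl' (hw' (hj3 h2))
  obtain ⟨c, c', hbc, hcc, hz, hOK⟩ : ∃ c c', b ≤ c ∧ c' ≤ b2 ∧
      (∀ n, c ≤ n → n < c' → bits (s2 i).stem n = false) ∧ s1 ∈ OKs Γ j c c' := by
    by_cases hhit : ∃ m, b ≤ m ∧ m < b1 ∧ bits (s2 i).stem m = true
    · obtain ⟨m, hm1, hm2, hm3⟩ := hhit
      refine ⟨b1, b2, hbb1.le, le_rfl, fun n hn hn' => ?_, h5⟩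
      by_contra hcon
      rw [Bool.not_eq_false] at hcon
      obtain ⟨b', h6, h7, h8, -, h9⟩ := hthin m n (by omega) (by omega) (by omega) hm3 hcon b1
        hm2 hn (hEg _ _ _ h2) hξb1
      exact h8 (honly b' (by omega) (by omega) h9)
    · refine ⟨b, b1, le_rfl, hb1b2.le, fun n hn hn' => ?_, h4⟩
      by_contra hcon
      rw [Bool.not_eq_false] at hcon
      exact hhit ⟨n, hn, hn', hcon⟩
  obtain ⟨i', hi1, hi2, hi3, a, a', ha1, ha2, ha3, ha4, ha5, ha6, ha7⟩ :=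
    OKs.op c c' s1 hOK s3 (le_mono (Set.subset_univ _) hs31)
  refine ⟨s3, le_trans' hU hs31 hs1, a, a', hbc.trans (hi2.trans ha1),
    nextN_of_bits hrep hs ha2 ha4 ha5 ha6, fun b' w hw hwb => ?_, fun n hn hn' w hw => ?_⟩
  · rcases even_next hE (hj3 h1) (hj3 h3) hw hwb with h | h
    · exact Or.inl h
    · exact Or.inr ((ha3.trans (hi3.trans hcc)).trans h)
  · have hc : c ≤ n := hi2.trans (ha1.trans hn)
    have hc' : n < c' := hn'.trans_le (ha3.trans hi3)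
    constructor
    · intro h
      refine absurd h (not_meets_genY (i := i) (s := s3) ?_ ?_ hw)
      · rw [hs3i]
        omega
      · rw [hs3i]
        exact hz n hc hc'
    · intro h
      refine absurd h (not_meets_genY (i := j) (s := s3) ?_ ?_ hw)
      · exact hn'.trans_le (ha3.trans (off_le_len _ _))
      · exact ha7 n hn hn'

/-- the families of the thin generic reals of one kind are captured -/
theorem famX_captured [Infinite K] (hΓ : Full Γ) (hI : Pool.Agent.W684.FM.Bdd K I)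
    (hA : ∀ (x : Nm K I) (β δ : I), Supp (Set.Iio δ) x →
      ∃ j, β ≤ j ∧ Γ.typ j = none ∧ Γ.A j = x) {g : ℕ → Bool}
    (hg : ∀ N, ∃ n, N ≤ n ∧ g n = true) {A : ℕ → Set (PP Γ)} {q : PP Γ} (hq : q ∈ InfN A) :
    ∃ B y : ℕ → Set (PP Γ), q ∈ InfN B ∧ ∀ i, q ∈ CapturedN A B y (famX Γ g i) := by
  obtain ⟨a, ha⟩ := exists_raw_name A
  have ha' : Rep Γ a A := ha
  obtain ⟨δ, hδ⟩ := exists_supp hI (J := Unit)
    (by simpa using (Cardinal.one_le_aleph0.trans (Cardinal.aleph0_le_mk K))) fun _ => a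
  obtain ⟨j, hj, hτj, hjA⟩ := hA a δ δ (hδ δ le_rfl ())
  have hrep : Rep Γ (Γ.A j) A := hjA ▸ ha'
  have hs : Supp (Set.Iio j) (Γ.A j) := hjA ▸ hδ j hj ()
  obtain ⟨E, hE, hEg, hEok⟩ := exists_E (Γ := Γ) g hg j
  have hok : ∀ t : PP Γ, t ≤ q → ∀ b, ∃ t' : PP Γ, t' ≤ t ∧ ∃ b', t' ∈ OKs Γ j b b' :=
    fun t ht b => exists_OK hτj hrep hs (hΓ j zeroN supp_zeroN) hq t ht b
  obtain ⟨xE, hxE, hx1, hx2⟩ := exists_range (Γ := Γ) (isLowerSet_Iic j) E
  refine ⟨evenB E, genY Γ j, infN_evenB hE q, fun i => ?_⟩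
  have hold : ∀ x : Nm K I, Supp (Set.Iio j) x → ∀ X : ℕ → Set (PP Γ), Rep Γ x X →
      q ∈ CapturedN A (evenB E) (genY Γ j) X := by
    intro x hx X hX
    obtain ⟨k, hk⟩ := hΓ j x hx
    exact captured_coarse hE hEok hok (captured_gen hτj hrep hs hq (k := k)
      (by rw [hk]; exact hX) (by rw [hk]; exact hx))
  by_cases hti : Γ.typ i = some g
  · rcases lt_trichotomy i j with h | rfl | h
    · obtain ⟨x, hx, hX⟩ := exists_rep_famX (Γ := Γ) g h
      exact hold x hx _ hX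
    · rw [hti] at hτj
      exact absurd hτj (by simp)
    · obtain ⟨k, hk⟩ := hΓ i xE (hxE.mono fun l hl => (show l ≤ j from hl).trans_lt h)
      rw [famX, if_pos hti]
      exact captured_late hti h hrep hs hE hEg hEok hok hxE hx1 hx2 hk
  · rw [famX, if_neg hti]
    exact hold zeroN supp_zeroN _ rep_zeroN

end Pool.Agent.H105.AMA
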