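import Pool.Agent.H105.AMA.XCap2

/-!
# The union of the families is not captured
-/

set_option autoImplicit false
set_option linter.unusedSectionVars false

namespace Pool.Agent.H105.AMA

open Classical Cardinal Pool.Agent.Helper669.Forcing
open Pool.Agent.W684.BMA (Inf Next Captured InfN NextN CapturedN AllCaptured AllCapturedN fiff)

variable {K I : Type} [LinearOrder I] [WellFoundedLT I] {Γ : Par K I} {i δ : I}

/-- between `m` and `v` there is an interval of the partition given by `b`, or the condition is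
not compatible with `q` -/
def blockU (Γ : Par K I) (δ : I) (xB : Nm K I) (q : Cond K I) (m v : ℕ) : Set (Cond K I) :=
  {t | (∃ b b', m ≤ b ∧ b < b' ∧ b' ≤ v ∧ Bit (le Γ (Set.Iio δ)) t xB b true ∧
      Bit (le Γ (Set.Iio δ)) t xB b' true ∧
      ∀ c, b < c → c < b' → Bit (le Γ (Set.Iio δ)) t xB c false) ∨
    ∀ s, le Γ (Set.Iio δ) s t → ¬ le Γ (Set.Iio δ) s q}

theorem exists_blockBN {B : ℕ → Set (PP Γ)} {xB : Nm K I} (hB : Rep Γ xB B)
    (hs : Supp (Set.Iio δ) xB) {q : PP Γ} (hq : q ∈ InfN B) :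
    ∃ φ : BN Γ (Set.Iio δ), ∀ m v, φ.U m v = blockU Γ δ xB q m v := by
  have hlow := lower_Iio δ
  have hU := isLowerSet_univ (α := I)
  refine ⟨⟨fun m v => blockU Γ δ xB q m v, ?_, ?_, ?_⟩, fun _ _ => rfl⟩
  · rintro m v t (⟨b, b', h1, h2, h3, h4, h5, h6⟩ | h) t' ht'
    · exact Or.inl ⟨b, b', h1, h2, h3, h4.mono hlow ht', h5.mono hlow ht',
        fun c hc hc' => (h6 c hc hc').mono hlow ht'⟩
    · exact Or.inr fun s hs => h s (le_trans' hlow hs ht')
  · rintro m v v' hv t (⟨b, b', h1, h2, h3, h4⟩ | h)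
    · exact Or.inl ⟨b, b', h1, h2, h3.trans hv, h4⟩
    · exact Or.inr h
  · intro m t
    by_cases h : ∃ s, le Γ (Set.Iio δ) s t ∧ le Γ (Set.Iio δ) s q
    swap
    · exact ⟨t, le_refl' _ t, 0, Or.inr fun s hs hsq => h ⟨s, hs, hsq⟩⟩
    obtain ⟨s, hst, hsq⟩ := h
    have helem : ∀ (t : PP Γ) (_ : t ≤ q) (c : ℕ), ∃ t' : PP Γ, t' ≤ t ∧ ∃ a, c ≤ a ∧
        Bit (le Γ (Set.Iio δ)) t' xB a true := by
      intro t ht c
      obtain ⟨t1, ht1, a, hca, ha⟩ := mem_fex.1 (down_InfN B q hq t ht c) t le_rfl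
      obtain ⟨t2, ht2, b, hb⟩ := Bit.dense (Γ := Γ) (T := Set.univ) t1 xB a
      have h1 : (t2 : PP Γ) ∈ meets (B a) := down_meets _ _ ha t2 ht2
      have h2 : b = true := (hB.true_iff hb).1 h1
      subst h2
      exact ⟨t2, le_trans' hU ht2 ht1, a, hca, (Bit.iff_of_supp hlow (Set.subset_univ _) hs).1 hb⟩
    have hmix : le Γ Set.univ (mix (Set.Iio δ) s q) q := mix_le hlow hsq
    obtain ⟨t1, ht1, b, hb, hb1⟩ := helem _ hmix m
    obtain ⟨t2, ht2, b0, hb0, hb2⟩ := helem t1 (le_trans' hU ht1 hmix) (b + 1)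
    obtain ⟨t3, ht3, hd⟩ := (ofRaw (Γ := Γ) xB hlow).decide hlow hlow (Set.Subset.refl _)
      (b0 + 1) t2
    choose! v hv using hd
    have ht32 : le Γ (Set.Iio δ) t3 t1 :=
      le_trans' hlow ht3 (le_mono (Set.subset_univ _) ht2)
    have hvb0 : v b0 = true := (hv b0 (by omega)).unique (hb2.mono hlow ht3)
    have hex : ∃ n, b < n ∧ v n = true := ⟨b0, hb0, hvb0⟩
    have h1 := Nat.find_spec hex
    have hle : Nat.find hex ≤ b0 := Nat.find_min' hex ⟨hb0, hvb0⟩
    refine ⟨t3, ?_, Nat.find hex, Or.inl ⟨b, Nat.find hex, hb, h1.1, le_rfl,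
      hb1.mono hlow ht32, ?_, ?_⟩⟩
    · refine le_trans' hlow ht32 (le_trans' hlow (le_mono (Set.subset_univ _) ht1) ?_)
      exact le_trans' hlow (le_of_eq hlow fun i hi => mix_mem _ _ hi) hst
    · have h2 := hv _ (Nat.lt_succ_of_le hle)
      rw [h1.2] at h2
      exact h2
    · intro c hc hc'
      have h2 := hv c (by omega)
      have h3 : v c = false := by
        have := Nat.find_min hex hc'
        push Not at this
        simpa using this hc
      rw [h3] at h2
      exact h2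

/-- The union of the families is not captured. -/
theorem not_captured [Infinite K] (hΓ : Full Γ) (hI : Pool.Agent.W684.FM.Bdd K I)
    (hT : ∀ g : ℕ → Bool, (∀ N, ∃ n, N ≤ n ∧ g n = true) → ∀ β, ∃ j, β ≤ j ∧ Γ.typ j = some g)
    {B y : ℕ → Set (PP Γ)} {q : PP Γ} (hq : q ∈ InfN B) :
    ∃ g : ℕ → Bool, (∀ N, ∃ n, N ≤ n ∧ g n = true) ∧ ∃ i,
      q ∈ fnot (CapturedN (fun _ => Set.univ) B y (famX Γ g i)) := by
  have hU := isLowerSet_univ (α := I)
  obtain ⟨xB, hxB'⟩ := exists_raw_name B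
  obtain ⟨xy, hxy'⟩ := exists_raw_name y
  have hxB : Rep Γ xB B := hxB'
  have hxy : Rep Γ xy y := hxy'
  obtain ⟨δ, hδ⟩ := exists_supp hI (J := Bool)
    ((Cardinal.lt_aleph0_of_finite _).le.trans (Cardinal.aleph0_le_mk K))
    fun b => if b = true then xB else xy
  have hsB : Supp (Set.Iio δ) xB := by simpa using hδ δ le_rfl true
  have hsy : Supp (Set.Iio δ) xy := by simpa using hδ δ le_rfl false
  have hlow := lower_Iio δ
  obtain ⟨φ, hφ⟩ := exists_blockBN hxB hsB hq
  obtain ⟨a, ha⟩ := inb hΓ (Set.Iio δ) hlow φ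
  obtain ⟨u, hu⟩ : ∃ u : ℕ → ℕ, ∀ n, u (n + 1) = max (u n + 1) (a (u n)) :=
    ⟨fun n => Nat.rec 0 (fun _ c => max (c + 1) (a c)) n, fun _ => rfl⟩
  have hmono : StrictMono u := strictMono_nat_of_lt_succ fun n => by
    rw [hu]
    exact (Nat.lt_succ_self _).trans_le (le_max_left _ _)
  have hg0 : ∀ n : ℕ, ∃ v : Bool, v = true ↔ ∃ l : ℕ, u l = n := by
    intro n
    by_cases h : ∃ l : ℕ, u l = n
    · exact ⟨true, by simp [h]⟩
    · exact ⟨false, by simp [h]⟩
  choose g hgu using hg0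
  have hginf : ∀ N, ∃ n, N ≤ n ∧ g n = true := fun N =>
    ⟨u N, hmono.id_le N, (hgu _).2 ⟨N, rfl⟩⟩
  obtain ⟨i, hi, hτ⟩ := hT g hginf δ
  have hiδ : i ∉ Set.Iio δ := fun h => absurd hi (not_le.2 h)
  have hsub : Set.Iio δ ⊆ Set.Iio i := fun l hl => (show l < δ from hl).trans_le hi
  refine ⟨g, hginf, i, fun r hr hcap => ?_⟩
  rw [famX, if_pos hτ] at hcap
  obtain ⟨r', hr', N0, hN0⟩ := captured_elim hcap le_rfl
  obtain ⟨r1, hr1, hset1, hlen1⟩ := exists_settled hτ r' N0
  have hr1' : le Γ Set.univ r1 r' := fun l _ => hr1 l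
  have hr1q : le Γ Set.univ r1 q := le_trans' hU hr1' (le_trans' hU hr' hr)
  obtain ⟨q1, hq1, m, hm, ⟨l0, rfl⟩, hUm⟩ := ha (fun m => ∃ l, u l = m)
    (fun N => ⟨u N, hmono.id_le N, N, rfl⟩) r1 (len (r1 i).stem)
  let r2 : Cond K I := mix (Set.Iio δ) q1 r1
  have hr21 : le Γ Set.univ r2 r1 := mix_le hlow hq1
  have hr2q1 : le Γ (Set.Iio δ) r2 q1 := le_of_eq hlow fun l hl => mix_mem _ _ hl
  have hr2U : r2 ∈ blockU Γ δ xB q (u l0) (a (u l0)) := by
    rw [← hφ]
    exact φ.op _ _ q1 hUm r2 hr2q1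
  rcases hr2U with ⟨b, b', hb1, hb2, hb3, hb4, hb5, hb6⟩ | h
  swap
  · exact h r2 (le_refl' _ r2) (le_mono (Set.subset_univ _) (le_trans' hU hr21 hr1q))
  have hset2 : r2 ∈ Settled Γ g i := Settled.mix hset1 hlow hiδ hq1
  have hr2i : r2 i = r1 i := mix_notMem _ _ hiδ
  -- decide the real
  obtain ⟨w, hw, hd⟩ := (ofRaw (Γ := Γ) xy hlow).decide hlow hlow (Set.Subset.refl _) b' r2
  choose! η hη using hd
  let r3 : Cond K I := mix (Set.Iio δ) w r2
  have hr32 : le Γ Set.univ r3 r2 := mix_le hlow hw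
  have hr3w : le Γ (Set.Iio δ) r3 w := le_of_eq hlow fun l hl => mix_mem _ _ hl
  have hset3 : r3 ∈ Settled Γ g i := Settled.mix hset2 hlow hiδ hw
  have hr3i : r3 i = r1 i := (mix_notMem _ _ hiδ).trans hr2i
  have hη3 : ∀ n < b', Bit (le Γ (Set.Iio δ)) r3 xy n (η n) := fun n hn =>
    Bit.mono hlow (hη n hn) hr3w
  -- the extension of the stem
  have hLb : len (r1 i).stem ≤ b := hm.trans hb1
  let β : List Bool := (List.range (b' - b)).map fun t => !η (b + t)
  have hβlen : β.length = b' - b := by simp [β]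
  let s' : List (List Bool) := pad (r1 i).stem b ++ [β]
  have hs'len : len s' = b' := by
    rw [show s' = pad (r1 i).stem b ++ [β] from rfl, len_snoc, len_pad _ hLb, hβlen]
    omega
  have hpre : (r1 i).stem <+: s' := (pad_prefix _ b).trans (List.prefix_append _ _)
  have hbits1 : ∀ n, len (r1 i).stem ≤ n → n < b → bits s' n = false := by
    intro n hn hn'
    rw [show s' = pad (r1 i).stem b ++ [β] from rfl,
      bits_prefix (List.prefix_append _ _) (by rw [len_pad _ hLb]; exact hn'), bits_pad _ _ hn]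
  have hbits2 : ∀ n, b ≤ n → n < b' → bits s' n = !η n := by
    intro n hn hn'
    rw [show s' = pad (r1 i).stem b ++ [β] from rfl,
      bits_snoc _ _ (by rw [len_pad _ hLb]; exact hn), len_pad _ hLb,
      List.getD_eq_getElem _ _ (by rw [hβlen]; omega)]
    simp only [β, List.getElem_map, List.getElem_range]
    congr 2
    omega
  let r4 : Cond K I := upd r3 i ⟨s', (r3 i).pr⟩
  have hr4i : r4 i = ⟨s', (r3 i).pr⟩ := upd_same _ _ _
  have hr43' : ∀ l, l ≠ i → r4 l = r3 l := fun l hl => upd_of_ne _ _ hl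
  have hr43i : le Γ (Set.Iio i) r4 r3 :=
    le_of_eq (lower_Iio i) fun l hl => hr43' l (ne_of_lt hl)
  have hr43 : le Γ Set.univ r4 r3 := by
    intro l _
    rcases lt_trichotomy l i with h | rfl | h
    · exact hr43i l h
    · refine thin_ext hτ hr4i (by rw [hr3i]; exact hpre) fun k hk hN t ht ξ hξ => ?_
      rw [hs'len] at hξ
      rw [hr3i]
      intro m' n hm'n hLn hn hbm hbn c hmc hcn hgc _
      rw [hs'len] at hn
      have hbn' : b ≤ n := by
        by_contra hcon
        rw [hbits1 n hLn (not_le.1 hcon)] at hbn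
        exact Bool.false_ne_true hbn
      rcases lt_or_ge m' (len (r1 l).stem) with h | h
      · obtain ⟨b1, b2, h21, h22, h23, h24, h25, h26, h27⟩ := hset3 k hk hN m'
          (by rw [hr3i]; exact h) (by rw [hr3i, ← bits_prefix hpre h]; exact hbm)
        rw [hr3i] at h23
        have htr3 : le Γ (Set.Iio l) t r3 := le_trans' (lower_Iio l) ht hr43i
        have h29 : ξ b1 = true := (hξ b1 (by omega)).unique (h26.mono (lower_Iio l) htr3)
        have h30 : ξ b2 = true := (hξ b2 (by omega)).unique (h27.mono (lower_Iio l) htr3)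
        by_cases h31 : c = b1
        · exact ⟨b2, by omega, by omega, by omega, h25, h30⟩
        · exact ⟨b1, h21, by omega, fun h => h31 h.symm, h24, h29⟩
      · exfalso
        have hbm' : b ≤ m' := by
          by_contra hcon
          rw [hbits1 m' h (not_le.1 hcon)] at hbm
          exact Bool.false_ne_true hbm
        obtain ⟨l', rfl⟩ := (hgu c).1 hgc
        have h1 : l0 < l' := hmono.lt_iff_lt.1 (by omega)
        have h2 : u (l0 + 1) ≤ u l' := hmono.monotone h1
        have h3 : a (u l0) ≤ u (l0 + 1) := by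
          rw [hu]
          exact le_max_right _ _
        omega
    · exact ext_same_stem (by rw [hr43' l (ne_of_gt h)])
        (by rw [hr43' l (ne_of_gt h)]; exact fun _ h => h)
  -- the contradiction
  have hr42 : le Γ Set.univ r4 r2 := le_trans' hU hr43 hr32
  have hr4r' : le Γ Set.univ r4 r' := le_trans' hU hr42 (le_trans' hU hr21 hr1')
  have hupB : ∀ {n : ℕ} {v : Bool}, Bit (le Γ (Set.Iio δ)) r2 xB n v →
      Bit (le Γ Set.univ) r4 xB n v := fun h =>
    (Bit.iff_of_supp hlow (Set.subset_univ _) hsB).2 (h.mono hlow (le_mono (Set.subset_univ _) hr42))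
  obtain ⟨s1, hs1, c, c', hc1, hc2, hc3, hc4⟩ := hN0 r4 hr4r' b (hlen1.trans hLb)
    (hxB.1 b r4 (hupB hb4))
  have hc'b : c' ≤ b' := by
    rcases hc3 b' s1 le_rfl (down_meets (P := PP Γ) _ _ (hxB.1 b' r4 (hupB hb5)) s1 hs1) with h | h
    · exact absurd hb2 (not_lt.2 h)
    · exact h
  have hcc' : c < c' := hc2.1
  have hiff := hc4 c le_rfl hcc' s1 le_rfl
  have hyb : Bit (le Γ Set.univ) s1 xy c (η c) :=
    ((Bit.iff_of_supp hlow (Set.subset_univ _) hsy).2 ((hη3 c (by omega)).mono hlow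
      (le_mono (Set.subset_univ _) hr43))).mono hU hs1
  replace hiff := hiff.trans (hxy.true_iff hyb)
  have hclen : c < len (r4 i).stem := by
    rw [hr4i]
    simp only
    rw [hs'len]
    omega
  have hcbit : bits (r4 i).stem c = !η c := by
    rw [hr4i]
    exact hbits2 c hc1 (by omega)
  rcases h : η c with _ | _
  · rw [h] at hcbit hiff
    have h0 : r4 ∈ genY Γ i c := ⟨hclen, hcbit⟩
    have h1 : s1 ∈ meets (genY Γ i c) :=
      down_meets (P := PP Γ) _ _ (meets_of_mem (P := PP Γ) h0) s1 hs1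
    exact absurd (hiff.1 h1) (by simp)
  · rw [h] at hcbit hiff
    exact not_meets_genY (i := i) (s := r4) hclen hcbit hs1 (hiff.2 rfl)

end Pool.Agent.H105.AMA
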